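import Pool.Agent.H81.TE.Ord

/-!
# The forms of `y² + y = x³` over the intermediate fields
-/

set_option autoImplicit false
set_option linter.unusedSectionVars false

namespace Pool.Agent.H81.TE

open NumberField IsDedekindDomain WeierstrassCurve Complex
open Pool.Agent.Y696
open Pool.Agent.K7.H45.CM
open scoped IsMulCommutative

/-- the Artin map of the fields `K` -/
theorem exists_art (F K : Type) [Field F] [NumberField F] [IsCyclotomicExtension {3} ℚ F] [Field K]
    [NumberField K] [Algebra F K] [IsGalois F K] (n : ℕ)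
    (hn : Module.finrank F K = 3 ^ n) (S : Finset (𝓞 F))
    (hunr : ∀ w : HeightOneSpectrum (𝓞 K), (∀ π ∈ S, algebraMap (𝓞 F) (𝓞 K) π ∉ w.asIdeal) →
      Algebra.IsUnramifiedAt (𝓞 F) w.asIdeal)
    (hS : OnePrime F S ∨ SeveralPrimes F K n S) :
    ∃ (c : 𝓞 F) (A : (𝓞 F ⧸ Ideal.span {c})ˣ →* Gal(K/F)), c ≠ 0 ∧ Art c A := by
  rcases hS with ⟨π, rfl, hπ, h3, h9⟩ | H
  · have hunr' : ∀ w : HeightOneSpectrum (𝓞 K), algebraMap (𝓞 F) (𝓞 K) π ∉ w.asIdeal →
        Algebra.IsUnramifiedAt (𝓞 F) w.asIdeal := fun w hw => hunr w fun p hp => by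
      rw [Finset.mem_singleton] at hp
      rwa [hp]
    obtain ⟨art, hart⟩ := Pool.Agent.H62.Cft.art_of_one hn hπ h3 hunr'
    exact ⟨π, art, hπ.ne_zero, hart⟩
  · obtain ⟨ζ, hζ⟩ := IsCyclotomicExtension.exists_isPrimitiveRoot ℚ F
      (Set.mem_singleton 3) (by norm_num)
    have hcyc : IsCyclic Gal(K/F) := H.cyclic
    have hI' : hζ.toInteger ^ 2 + hζ.toInteger + 1 = 0 := by
      apply FaithfulSMul.algebraMap_injective (𝓞 F) F
      rw [map_add, map_add, map_pow, map_one, map_zero]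
      exact Pool.Agent.H62.quad_of hζ
    have hSp : ∀ π ∈ S, Prime π ∧ 3 * (2 * hζ.toInteger + 1) ∣ π - 1 := fun π hπ =>
      ⟨H.prime π hπ, H.congr π hπ _ (by linear_combination 4 * hI')⟩
    have hS3 : ∀ π ∈ S, Prime π ∧ (3 : 𝓞 F) ∣ π - 1 := fun π hπ =>
      ⟨H.prime π hπ, (dvd_mul_right _ _).trans (hSp π hπ).2⟩
    have h3c : (3 : 𝓞 F) ∣ (∏ π ∈ S, π) - 1 := Pool.Agent.H62.three_dvd_prod hS3
    have h0 : (∏ π ∈ S, π) ≠ 0 := Finset.prod_ne_zero_iff.2 fun π hπ => (H.prime π hπ).ne_zero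
    obtain ⟨art, hart⟩ := Pool.Agent.H62.Cft.art_of_cyclic (K := K) hn h0 h3c (fun w hw =>
        hunr w fun π hπ h => hw (by
          rw [map_prod]
          exact w.asIdeal.mem_of_dvd (Finset.dvd_prod_of_mem _ hπ) h))
    exact ⟨_, art, h0, hart⟩

/-- **The forms.** -/
theorem forms (F K : Type) [Field F] [NumberField F] [IsCyclotomicExtension {3} ℚ F] [Field K]
    [NumberField K] [Algebra F K] [IsGalois F K] (n : ℕ) (hn0 : n ≠ 0)
    (hn : Module.finrank F K = 3 ^ n) (S : Finset (𝓞 F))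
    (hunr : ∀ w : HeightOneSpectrum (𝓞 K), (∀ π ∈ S, algebraMap (𝓞 F) (𝓞 K) π ∉ w.asIdeal) →
      Algebra.IsUnramifiedAt (𝓞 F) w.asIdeal)
    (hS : OnePrime F S ∨ SeveralPrimes F K n S)
    (k : Type) [Field k] [NumberField k] [Algebra F k] [Algebra k K] [IsScalarTower F k K]
    (E : WeierstrassCurve k) (C : VariableChange K)
    (hC : C • E.map (algebraMap k K) = Ec (1 : K)) :
    Finite E.toAffine.Point ∧ NZ E := by
  obtain ⟨ζ, hζ⟩ := IsCyclotomicExtension.exists_isPrimitiveRoot ℚ F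
    (Set.mem_singleton 3) (by norm_num)
  obtain ⟨σ, hσ⟩ := exists_emb hζ
  obtain ⟨-, hfin, hNZ⟩ := input F K n hn0 hn S hunr hS
  have hpid : IsPrincipalIdealRing (𝓞 F) := IsCyclotomicExtension.Rat.three_pid F
  constructor
  · refine Pool.Agent.K7.H70.TW.fin_change (algebraMap k K) E C (V := E27 K) hC ?_ hfin
    have h1 : (E27 K).Δ = -27 * 1 ^ 4 := Ec_Δ (1 : K)
    rw [h1]
    norm_num
  · obtain ⟨c, A, hc, hA⟩ := exists_art F K n hn S hunr hS
    have hFA := fa_of hc hA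
    have hab : IsAbelianGalois F K := by
      refine { is_comm := ⟨fun a b => ?_⟩ }
      obtain ⟨x, rfl⟩ := hA.surj a
      obtain ⟨y, rfl⟩ := hA.surj b
      rw [← map_mul, ← map_mul, mul_comm]
    have hab2 : IsAbelianGalois F k := IsAbelianGalois.tower_bot F k K
    have hunr2 : ∀ w : HeightOneSpectrum (𝓞 K), IsCoprime (below F w).asIdeal (Ideal.span {c}) →
        Algebra.IsUnramifiedAt (𝓞 F) w.asIdeal := by
      intro w hw
      apply hA.unr w
      intro h
      have h1 : c ∈ (below F w).asIdeal := h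
      rw [Ideal.isCoprime_iff_sup_eq, sup_eq_left.2 ((Ideal.span_singleton_le_iff_mem _).2 h1)] at hw
      exact (below F w).isPrime.ne_top hw
    have hFk := fa_mid (k := k) hFA hunr2
    have : FiniteDimensional k K := Module.Finite.of_restrictScalars_finite ℚ k K
    have hodd : Odd (Module.finrank k K) := by
      have h1 : Odd (3 ^ n) := Odd.pow (by decide)
      rw [← hn, ← Module.finrank_mul_finrank F k K] at h1
      exact (Nat.odd_mul.1 h1).2
    obtain ⟨δ, ε, hδ, hε, C', hC'⟩ := form_int hodd E C hC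
    exact twist_main hζ hσ hFA hFk hNZ hδ hC' hε

end Pool.Agent.H81.TE
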