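import Pool.Agent.H81.TE.Psi
import Pool.Agent.H62.EX.Exi

/-!
# The Artin map on ideals, of a cyclic extension and of the intermediate fields
-/

set_option autoImplicit false
set_option linter.unusedSectionVars false
set_option linter.deprecated false

namespace Pool.Agent.H81.TE

open NumberField IsDedekindDomain Pool.Agent.H62.EX Pool.Agent.H62.Cft
open Pool.Agent.K7.H45.CM (NH NA FA below exists_above)
open Pool.Agent.Y696 (Art)

section
variable {F T : Type} [Field F] [NumberField F] [Field T] [NumberField T] [Algebra F T]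

open Classical in
/-- the Artin map on ideals -/
noncomputable def phi {c : 𝓞 F} (A : (𝓞 F ⧸ Ideal.span {c})ˣ →* Gal(T/F)) (I : Ideal (𝓞 F)) :
    Gal(T/F) :=
  if h : ∃ (a : 𝓞 F) (u : (𝓞 F ⧸ Ideal.span {c})ˣ), I = Ideal.span {a} ∧
      (u : 𝓞 F ⧸ Ideal.span {c}) = Ideal.Quotient.mk _ a then A h.choose_spec.choose else 1

theorem phi_eq [IsGalois F T] [IsPrincipalIdealRing (𝓞 F)] {c : 𝓞 F} (hc : c ≠ 0)
    {A : (𝓞 F ⧸ Ideal.span {c})ˣ →* Gal(T/F)} (hA : Art c A) (a : 𝓞 F)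
    (u : (𝓞 F ⧸ Ideal.span {c})ˣ) (hu : (u : 𝓞 F ⧸ Ideal.span {c}) = Ideal.Quotient.mk _ a) :
    phi A (Ideal.span {a}) = A u := by
  have h : ∃ (b : 𝓞 F) (u : (𝓞 F ⧸ Ideal.span {c})ˣ), Ideal.span {a} = Ideal.span {b} ∧
      (u : 𝓞 F ⧸ Ideal.span {c}) = Ideal.Quotient.mk _ b := ⟨a, u, rfl, hu⟩
  unfold phi
  rw [dif_pos h]
  obtain ⟨h1, h2⟩ := h.choose_spec.choose_spec
  generalize h.choose_spec.choose = u' at h2
  generalize h.choose = b at h1 h2
  obtain ⟨e, he⟩ := Ideal.span_singleton_eq_span_singleton.1 h1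
  have h3 : u' = u * Units.map (Ideal.Quotient.mk (Ideal.span {c}) : 𝓞 F →* _) e := by
    apply Units.ext
    rw [h2, Units.val_mul, hu, ← he, map_mul]
    rfl
  rw [h3, map_mul, art_unit hc hA e (Units.map (Ideal.Quotient.mk (Ideal.span {c}) : 𝓞 F →* _) e) rfl,
    mul_one]

theorem coprime_unit {c a : 𝓞 F} :
    IsCoprime (Ideal.span {a}) (Ideal.span {c}) ↔ IsUnit (Ideal.Quotient.mk (Ideal.span {c}) a) := by
  rw [Ideal.isCoprime_span_singleton_iff]
  constructor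
  · rintro ⟨x, y, h⟩
    refine IsUnit.of_mul_eq_one (Ideal.Quotient.mk _ x) ?_
    rw [← map_mul, ← map_one (Ideal.Quotient.mk _), eq_comm, Ideal.Quotient.eq,
      Ideal.mem_span_singleton]
    exact ⟨y, by linear_combination -h⟩
  · intro h
    obtain ⟨b, hb⟩ := h.exists_right_inv
    obtain ⟨b, rfl⟩ := Ideal.Quotient.mk_surjective b
    rw [← map_mul, ← map_one (Ideal.Quotient.mk _), Ideal.Quotient.eq, Ideal.mem_span_singleton] at hb
    obtain ⟨y, hy⟩ := hb
    exact ⟨b, -y, by linear_combination hy⟩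

/-- **The Artin map on ideals.** -/
theorem fa_of [IsGalois F T] [IsPrincipalIdealRing (𝓞 F)] {c : 𝓞 F} (hc : c ≠ 0)
    {A : (𝓞 F ⧸ Ideal.span {c})ˣ →* Gal(T/F)} (hA : Art c A) : FA F T (Ideal.span {c}) (phi A) := by
  have hgen : ∀ I : Ideal (𝓞 F), IsCoprime I (Ideal.span {c}) → ∃ (a : 𝓞 F)
      (u : (𝓞 F ⧸ Ideal.span {c})ˣ), I = Ideal.span {a} ∧
      (u : 𝓞 F ⧸ Ideal.span {c}) = Ideal.Quotient.mk _ a := by
    intro I hI
    obtain ⟨a, ha⟩ := (IsPrincipalIdealRing.principal I).principal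
    have ha' : I = Ideal.span {a} := ha
    subst ha'
    obtain ⟨u, hu⟩ := coprime_unit.1 hI
    exact ⟨a, u, rfl, hu⟩
  have hcw : ∀ v : HeightOneSpectrum (𝓞 T), IsCoprime (below F v).asIdeal (Ideal.span {c}) →
      algebraMap (𝓞 F) (𝓞 T) c ∉ v.asIdeal := by
    intro v hv h
    have h1 : c ∈ (below F v).asIdeal := h
    rw [Ideal.isCoprime_iff_sup_eq, sup_eq_left.2 ((Ideal.span_singleton_le_iff_mem _).2 h1)] at hv
    exact (below F v).isPrime.ne_top hv
  refine ⟨⟨?_, ?_, ?_, ?_⟩, ?_, ?_⟩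
  · rw [Ne, Ideal.span_singleton_eq_bot]
    exact hc
  · intro I J _ _ hI hJ
    obtain ⟨a, u, rfl, hu⟩ := hgen I hI
    obtain ⟨b, t, rfl, ht⟩ := hgen J hJ
    rw [Ideal.span_singleton_mul_span_singleton, phi_eq hc hA a u hu, phi_eq hc hA b t ht,
      phi_eq hc hA (a * b) (u * t) (by rw [Units.val_mul, hu, ht, map_mul]), map_mul]
  · intro α _ h
    rw [phi_eq hc hA α 1, map_one]
    rw [Units.val_one, ← map_one (Ideal.Quotient.mk _), eq_comm, Ideal.Quotient.eq]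
    exact h
  · intro g
    obtain ⟨u, rfl⟩ := hA.surj g
    obtain ⟨a, ha, hau⟩ := exists_rep hc (u : 𝓞 F ⧸ Ideal.span {c})
    refine ⟨Ideal.span {a}, ?_, coprime_unit.2 (hau ▸ u.isUnit), phi_eq hc hA a u hau.symm⟩
    rw [Ne, Ideal.span_singleton_eq_bot]
    exact ha
  · intro v hv g hg
    exact Pool.Agent.Y696.unr_g v (hA.unr v (hcw v hv)) hg
  · intro v hv x
    obtain ⟨p, hp, hvp⟩ := exists_gen (below F v)
    have hcop : IsCoprime (Ideal.span {p}) (Ideal.span {c}) := hvp ▸ hv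
    obtain ⟨u, hu⟩ := coprime_unit.1 hcop
    have hpv : algebraMap (𝓞 F) (𝓞 T) p ∈ v.asIdeal := by
      have : p ∈ (below F v).asIdeal := by rw [hvp]; exact Ideal.mem_span_singleton_self p
      exact this
    have h1 := hA.frob p hp u hu v hpv x
    have h2 : Ideal.absNorm (below F v).asIdeal = Nat.card (𝓞 F ⧸ Ideal.span {p}) := by
      rw [hvp, Ideal.absNorm_apply]
      rfl
    rw [h2, hvp, phi_eq hc hA p u hu]
    exact h1

end

section
variable {F k T : Type} [Field F] [NumberField F] [Field k] [NumberField k] [Field T]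
  [NumberField T] [Algebra F k] [Algebra k T] [Algebra F T] [IsScalarTower F k T]

/-- an unramified prime of an intermediate field -/
theorem unr_mid {w : HeightOneSpectrum (𝓞 T)} (h : Algebra.IsUnramifiedAt (𝓞 F) w.asIdeal) :
    Algebra.IsUnramifiedAt (𝓞 F) (w.under (𝓞 k)).asIdeal := by
  have h1 := not_le_sq h
  apply unr_conv
  intro h2
  apply h1
  have h3 : ((w.under (𝓞 k)).under (𝓞 F)).asIdeal = (w.under (𝓞 F)).asIdeal :=
    Ideal.under_under (A := 𝓞 F) (B := 𝓞 k) w.asIdeal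
  rw [h3] at h2
  have h4 : (w.under (𝓞 F)).asIdeal.map (algebraMap (𝓞 F) (𝓞 T)) =
      ((w.under (𝓞 F)).asIdeal.map (algebraMap (𝓞 F) (𝓞 k))).map (algebraMap (𝓞 k) (𝓞 T)) := by
    rw [Ideal.map_map, ← IsScalarTower.algebraMap_eq]
  rw [h4]
  refine (Ideal.map_mono h2).trans ?_
  rw [Ideal.map_pow]
  exact Ideal.pow_right_mono (Ideal.map_le_iff_le_comap.2 le_rfl) 2

/-- **The Artin map of an intermediate field.** -/
theorem fa_mid [IsGalois F T] [IsGalois F k] {q : Ideal (𝓞 F)} {Φ : Ideal (𝓞 F) → Gal(T/F)}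
    (hF : FA F T q Φ)
    (hunr : ∀ w : HeightOneSpectrum (𝓞 T), IsCoprime (below F w).asIdeal q →
      Algebra.IsUnramifiedAt (𝓞 F) w.asIdeal) :
    FA F k q (fun I => (AlgEquiv.restrictNormalHom k (Φ I) : Gal(k/F))) := by
  have hab : ∀ v : HeightOneSpectrum (𝓞 k), ∃ w : HeightOneSpectrum (𝓞 T), w.under (𝓞 k) = v ∧
      below F w = below F v := by
    intro v
    obtain ⟨w, hw⟩ := Pool.Agent.H62.EX.exists_above (F := k) (K := T) v
    refine ⟨w, hw, ?_⟩
    rw [← hw]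
    apply HeightOneSpectrum.ext
    exact (Ideal.under_under (A := 𝓞 F) (B := 𝓞 k) w.asIdeal).symm
  refine ⟨⟨hF.na.ne, ?_, ?_, ?_⟩, ?_, ?_⟩
  · intro I J hI hJ h1 h2
    rw [hF.na.mul I J hI hJ h1 h2, map_mul]
  · intro α hα h
    rw [hF.na.one α hα h, map_one]
  · intro g
    obtain ⟨g', rfl⟩ := AlgEquiv.restrictNormalHom_surjective (F := F) (K₁ := k) T g
    obtain ⟨I, h1, h2, h3⟩ := hF.na.surj g'
    exact ⟨I, h1, h2, by rw [h3]⟩
  · intro v hv g hg
    obtain ⟨w, hw, hwv⟩ := hab v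
    have h1 := unr_mid (k := k) (hunr w (hwv ▸ hv))
    rw [hw] at h1
    exact Pool.Agent.Y696.unr_g v h1 hg
  · intro v hv x
    obtain ⟨w, hw, hwv⟩ := hab v
    have h1 := hF.frob w (hwv ▸ hv) (algebraMap (𝓞 k) (𝓞 T) x)
    rw [hwv] at h1
    have h2 : algebraMap (𝓞 k) (𝓞 T) ((AlgEquiv.restrictNormalHom k (Φ (below F v).asIdeal) : Gal(k/F)) • x) =
        Φ (below F v).asIdeal • algebraMap (𝓞 k) (𝓞 T) x := by
      apply RingOfIntegers.coe_injective
      exact AlgEquiv.restrictNormal_commutes (Φ (below F v).asIdeal) k (x : k)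
    rw [← h2, ← map_pow, ← map_sub] at h1
    have h5 : ((AlgEquiv.restrictNormalHom k (Φ (below F v).asIdeal) : Gal(k/F)) • x -
        x ^ Ideal.absNorm (below F v).asIdeal) ∈ (w.under (𝓞 k)).asIdeal := h1
    rw [hw] at h5
    exact h5

end

end Pool.Agent.H81.TE
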