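import Pool.Agent.H62.Fin4
import Pool.Agent.H62.Lt6
import Pool.Agent.H62.Fin7
import Pool.Agent.H62.Per
import Pool.Agent.H62.Cft4
import Pool.Graph.R_pool_sql_team_seeded_35f281b4.K7.H65.G4.Tors
import Pool.Graph.R_pool_sql_team_seeded_35f281b4.K7.H65.G4.Lfun
import Pool.Graph.R_pool_sql_team_seeded_35f281b4.K7.H65.G4.Two
import Pool.Graph.R_pool_sql_team_seeded_35f281b4.K7.H70.SM.B
import Pool.Graph.R_pool_sql_team_seeded_35f281b4.K7.H73.L3.I


/-!
# The input on `E : y² + y = x³` over the cyclic `3`-power extensions of `ℚ(√-3)`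

`input`: over the fields `K` of T1 (one ramified prime) and T3 (several ramified primes) of helper62, helper40,
helper47, helper81 the group `E(K)` is finite and `L(E/K, s)` continues to a meromorphic function that is analytic
and not zero at `1`; `cont`: the form of the frozen statement `S16511`.
-/

set_option autoImplicit false

namespace Pool.Agent.H81.TE

open NumberField IsDedekindDomain

/-- (R): a product of powers of the elements of `S` that is a cube in the completions of `K` at all the primes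
above the elements of `S` is a cube in `K`. -/
def LocalCubes (F K : Type) [Field F] [NumberField F] [Field K] [NumberField K] [Algebra F K]
    (S : Finset (𝓞 F)) : Prop :=
  ∀ x : 𝓞 F → ℕ,
    (∀ v : HeightOneSpectrum (𝓞 K), (∃ π ∈ S, algebraMap (𝓞 F) (𝓞 K) π ∈ v.asIdeal) →
      ∃ y : v.adicCompletion K,
        y ^ 3 = algebraMap K (v.adicCompletion K) (algebraMap F K (∏ π ∈ S, π ^ x π : 𝓞 F))) →
    ∃ z : K, z ^ 3 = algebraMap F K (∏ π ∈ S, π ^ x π : 𝓞 F)

/-- Case (a): there is only one prime element `π` in `S`, `π ≡ 1` modulo `3` and `π ≢ 1` modulo `9`.  (`K / F` is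
then necessarily cyclic, totally ramified at `π`, with one prime above three.) -/
def OnePrime (F : Type) [Field F] [NumberField F] (S : Finset (𝓞 F)) : Prop :=
  ∃ π : 𝓞 F, S = {π} ∧ Prime π ∧ 3 ∣ π - 1 ∧ ¬ 9 ∣ π - 1

/-- Case (b): `S` is a nonempty set of prime elements `π`, `π ≡ 1` modulo `3 √-3`, and `N(π) ≡ 1` modulo
`3 ^ (n + 1)` if `n ≠ 1`; `K / F` is cyclic, totally ramified at the `π`, `K` has one prime above three, and
(R) holds. -/
structure SeveralPrimes (F K : Type) [Field F] [NumberField F] [Field K] [NumberField K] [Algebra F K]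
    (n : ℕ) (S : Finset (𝓞 F)) : Prop where
  cyclic : IsCyclic Gal(K/F)
  nonempty : S.Nonempty
  prime : ∀ π ∈ S, Prime π
  congr : ∀ π ∈ S, ∀ θ : 𝓞 F, θ ^ 2 = -3 → 3 * θ ∣ π - 1
  norm : n ≠ 1 → ∀ π ∈ S, 3 ^ (n + 1) ∣ Ideal.absNorm (Ideal.span {π}) - 1
  totallyRamified : ∀ π ∈ S, ∀ v : HeightOneSpectrum (𝓞 K), algebraMap (𝓞 F) (𝓞 K) π ∈ v.asIdeal →
    ∀ (g : Gal(K/F)) (x : 𝓞 K), g • x - x ∈ v.asIdeal
  one_prime_above_three : ∀ v w : HeightOneSpectrum (𝓞 K), 3 ∈ v.asIdeal → 3 ∈ w.asIdeal → v = w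
  localCubes : LocalCubes F K S

/-- `E(K)` is finite and `L(E/K, s)` continues to a meromorphic function, analytic and not `0` at `1`, where
`E : y² + y = x³` -/
theorem input (F K : Type) [Field F] [NumberField F] [IsCyclotomicExtension {3} ℚ F] [Field K]
    [NumberField K] [Algebra F K] [IsGalois F K] (n : ℕ) (hn0 : n ≠ 0)
    (hn : Module.finrank F K = 3 ^ n) (S : Finset (𝓞 F))
    (hunr : ∀ w : HeightOneSpectrum (𝓞 K), (∀ π ∈ S, algebraMap (𝓞 F) (𝓞 K) π ∉ w.asIdeal) →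
      Algebra.IsUnramifiedAt (𝓞 F) w.asIdeal)
    (hS : OnePrime F S ∨ SeveralPrimes F K n S) :
    Pool.Agent.N883.T.Un3 F K ∧ Finite (Pool.Agent.Y696.E27 K).toAffine.Point ∧
    ∃ Lf : ℂ → ℂ, MeromorphicOn Lf Set.univ ∧ (∀ s : ℂ, 3 / 2 < s.re →
      LSeriesSummable ((fun n : ℤ => (n : ℂ)) ∘ (Pool.Agent.Y696.E27 K).LFunction) s ∧
        Lf s = (Pool.Agent.Y696.E27 K).LSeries s) ∧
      AnalyticAt ℂ Lf 1 ∧ Lf 1 ≠ 0 := by
  obtain ⟨ζ, hζ⟩ := IsCyclotomicExtension.exists_isPrimitiveRoot ℚ F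
    (Set.mem_singleton 3) (by norm_num)
  rcases hS with ⟨π, rfl, hπ, h3, h9⟩ | H
  · have hunr' : ∀ w : HeightOneSpectrum (𝓞 K), algebraMap (𝓞 F) (𝓞 K) π ∉ w.asIdeal →
        Algebra.IsUnramifiedAt (𝓞 F) w.asIdeal := fun w hw => hunr w fun p hp => by
      rw [Finset.mem_singleton] at hp
      rwa [hp]
    obtain ⟨art, hart⟩ := Pool.Agent.H62.Cft.art_of_one hn hπ h3 hunr'
    have hA : Pool.Agent.Y696.Art π art := hart
    have T := Pool.Agent.H62.tw_of_art hζ hn0 hn hA hπ h3 h9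
    obtain ⟨L, a1, a2, a3, a4, a5⟩ := Pool.Agent.H62.analytic_K3 hn0 hn hart hπ h3 h9 T
    exact ⟨Pool.Agent.H62.un3_of hA h3, T.triv.1, L, a1, a2, a3, a4⟩
  · have hcyc : IsCyclic Gal(K/F) := H.cyclic
    have hI' : hζ.toInteger ^ 2 + hζ.toInteger + 1 = 0 := by
      apply FaithfulSMul.algebraMap_injective (𝓞 F) F
      rw [map_add, map_add, map_pow, map_one, map_zero]
      exact Pool.Agent.H62.quad_of hζ
    have hSp : ∀ π ∈ S, Prime π ∧ 3 * (2 * hζ.toInteger + 1) ∣ π - 1 := fun π hπ =>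
      ⟨H.prime π hπ, H.congr π hπ _ (by linear_combination 4 * hI')⟩
    have hS3 : ∀ π ∈ S, Prime π ∧ (3 : 𝓞 F) ∣ π - 1 := fun π hπ =>
      ⟨H.prime π hπ, (dvd_mul_right _ _).trans (hSp π hπ).2⟩
    have h3c : (3 : 𝓞 F) ∣ (∏ π ∈ S, π) - 1 := Pool.Agent.H62.three_dvd_prod hS3
    obtain ⟨art, hart⟩ := Pool.Agent.H62.Cft.art_of_cyclic (K := K) hn
      (Finset.prod_ne_zero_iff.2 fun π hπ => (H.prime π hπ).ne_zero) h3c (fun w hw =>
        hunr w fun π hπ h => hw (by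
          rw [map_prod]
          exact w.asIdeal.mem_of_dvd (Finset.dvd_prod_of_mem _ hπ) h))
    have hA : Pool.Agent.Y696.Art (∏ π ∈ S, π) art := hart
    have htot' : ∀ v : HeightOneSpectrum (𝓞 K), algebraMap (𝓞 F) (𝓞 K) (∏ p ∈ S, p) ∈ v.asIdeal →
        ∀ (g : Gal(K/F)) (x : 𝓞 K), g • x - x ∈ v.asIdeal := by
      intro v hv
      rw [map_prod] at hv
      have := v.isPrime
      obtain ⟨p, hp, hpv⟩ := Ideal.IsPrime.prod_mem_iff.1 hv
      exact H.totallyRamified p hp v hpv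
    have hun3 : Pool.Agent.N883.T.Un3 F K := Pool.Agent.H62.un3_of hA h3c
    have T := Pool.Agent.H62.ms_of_art hζ hn0 hn hS3 hun3 H.totallyRamified H.one_prime_above_three
    have hunrS : Pool.Agent.H62.UnrS K S := Pool.Agent.H62.unrS_of hA
    obtain ⟨e, β, D⟩ := T.td hunrS hSp (fun π hπ => by
      by_cases hn1 : n = 1
      · subst hn1
        exact Pool.Agent.H62.nine_Nm hζ (hSp π hπ).2
      · exact H.norm hn1 π hπ) H.localCubes
    have hcx : IsTotallyComplex K := Pool.Agent.H62.complex_K (F := F) hn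
    obtain ⟨k, hk⟩ : ∃ k, S.card = k + 1 :=
      ⟨S.card - 1, by have := Finset.card_pos.2 H.nonempty; omega⟩
    have hfin := (T.algebra hn hunrS D hk).1
    obtain ⟨Λ, hΛ2, hΛ3⟩ : ∃ L : PeriodPair, L.g₂ = 0 ∧ L.g₃ = -1 := by
      obtain ⟨Λ, ω, p1, p2, p3⟩ := Pool.Agent.Y696.exists_real
      exact ⟨Λ, p1, p2⟩
    obtain ⟨L, a1, a2, a3, a5⟩ := Pool.Agent.H62.analytic_KX hn0 hn T.zeta D hk rfl hA htot'
      H.one_prime_above_three
    obtain ⟨r, ⟨r0, r1⟩, r3⟩ := a5 Λ hΛ2 hΛ3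
    refine ⟨hun3, hfin, L, a1, a2, a3, fun h0 => r0 ?_⟩
    have h1 : ((r : ℚ) : ℂ) = 0 := by
      rw [← r3, h0]
      simp
    exact_mod_cast h1

/-- a function meromorphic on `ℂ`, equal to a convergent `L`-series for `Re s > 3/2`, continues the latter to a
connected open set -/
theorem cont {a : ℕ → ℂ} {L Lf : ℂ → ℂ} (hm : MeromorphicOn Lf Set.univ)
    (hL : ∀ s, L s = LSeries a s)
    (hs : ∀ s : ℂ, 3 / 2 < s.re → LSeriesSummable a s ∧ Lf s = L s) (h1 : AnalyticAt ℂ Lf 1) :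
    ∃ U : Set ℂ, IsOpen U ∧ IsConnected U ∧ {s : ℂ | (3 / 2 : ℝ) < s.re} ⊆ U ∧ (1 : ℂ) ∈ U ∧
      AnalyticOnNhd ℂ Lf U ∧ ∀ s : ℂ, (3 / 2 : ℝ) < s.re → Lf s = L s := by
  have hm' : Meromorphic Lf := fun z => hm z (Set.mem_univ z)
  have hcount : {z : ℂ | AnalyticAt ℂ Lf z}ᶜ.Countable := hm'.countable_compl_analyticAt
  refine ⟨{z : ℂ | AnalyticAt ℂ Lf z}, isOpen_analyticAt ℂ Lf, ?_, ?_, h1, fun z hz => hz,
    fun s h => (hs s h).2⟩
  · have h2 := hcount.isConnected_compl_of_one_lt_rank (E := ℂ) (by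
      rw [Complex.rank_real_complex]
      exact Cardinal.one_lt_two)
    rwa [compl_compl] at h2
  · intro s hs1
    have hopen : IsOpen {s : ℂ | (3 / 2 : ℝ) < s.re} := isOpen_lt continuous_const Complex.continuous_re
    have hab : ∀ s : ℂ, (3 / 2 : ℝ) < s.re → LSeries.abscissaOfAbsConv a < s.re := by
      intro s h
      obtain ⟨x, hx1, hx2⟩ := exists_between h
      have h3 : LSeriesSummable a (x : ℂ) := (hs (x : ℂ) (by rwa [Complex.ofReal_re])).1
      refine lt_of_le_of_lt (h3.abscissaOfAbsConv_le) ?_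
      rw [Complex.ofReal_re]
      exact_mod_cast hx2
    have h2 : AnalyticAt ℂ (LSeries a) s := by
      refine (LSeries_differentiableOn a).analyticAt ?_
      refine (isOpen_lt continuous_const (continuous_coe_real_ereal.comp Complex.continuous_re)).mem_nhds ?_
      exact hab s hs1
    refine h2.congr ?_
    filter_upwards [hopen.mem_nhds hs1] with z hz
    rw [(hs z hz).2, hL]

end Pool.Agent.H81.TE
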