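import Pool.Agent.H23.AR.Euler2
import Pool.Agent.H81.TE.Input
import Pool.Graph.R_pool_sql_team_seeded_35f281b4.K7.H45.CM.Ng

/-!
The comparison of the Euler products, to the right of the line `3/2`.
-/

set_option autoImplicit false

open Complex NumberField IsDedekindDomain

namespace Pool.Agent.H81.TE

open Pool.Agent.H921R2.TatePole (nm two_le_nm nm_summable)
open Pool.Agent.W189.NF (aV eV aV_le eV_le card_res finite_res)
open Pool.Agent.K7.H45.CM

section one
variable {F : Type} [Field F] [NumberField F]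

lemma ef_ne32 (E : WeierstrassCurve F) (v : HeightOneSpectrum (𝓞 F)) {s : ℂ} (hs : 3 / 2 < s.re) :
    ef E v s ≠ 0 := by
  have h1 := (Pool.Agent.H23.AR.ifac_bounds E v hs).2
  have h2 : (0 : ℝ) < (Pool.Agent.H23.AR.bd (s.re - 1 / 2) v)⁻¹ :=
    inv_pos.2 (Pool.Agent.H23.AR.bd_pos (by linarith) v)
  have h3 : 0 < ‖ef E v s‖ := lt_of_lt_of_le h2 h1
  exact norm_pos_iff.1 h3

lemma euler32 (E : WeierstrassCurve F) {s : ℂ} (hs : 3 / 2 < s.re) :
    LSeriesSummable ((fun n : ℤ => (n : ℂ)) ∘ E.LFunction) s ∧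
    HasProd (fun v : HeightOneSpectrum (𝓞 F) => (ef E v s)⁻¹) (E.LSeries s) :=
  Pool.Agent.H23.AR.LSeries_hasProd E hs

/-- a function with the order of `Z` at `1` which continues the `L`-series of `E` -/
def Cn (E : WeierstrassCurve F) (Z : ℂ → ℂ) : Prop :=
  ∃ L : ℂ → ℂ, MeromorphicOn L Set.univ ∧
    (∀ s : ℂ, 3 / 2 < s.re → LSeriesSummable ((fun n : ℤ => (n : ℂ)) ∘ E.LFunction) s ∧
      L s = E.LSeries s) ∧ AnalyticAt ℂ L 1 ∧ analyticOrderAt L 1 = analyticOrderAt Z 1

end one

section two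
variable {K F : Type} [Field K] [NumberField K] [Field F] [NumberField F] [Algebra K F]

/-- **The comparison of the Euler products.** -/
theorem cn_of (E : WeierstrassCurve F) (A : HeightOneSpectrum (𝓞 F) → ℂ)
    (Good : HeightOneSpectrum (𝓞 K) → Prop) (hGood : {P | ¬ Good P}.Finite)
    (hA : ∀ v : HeightOneSpectrum (𝓞 F), Good (below K v) → ‖A v‖ ^ 2 = nm v)
    (hE : {v : HeightOneSpectrum (𝓞 F) | ¬ ∀ s, ef E v s = gf A v s}.Finite) {Z : ℂ → ℂ}
    (hZ : Differentiable ℂ Z) (hZp : ∀ s : ℂ, 3 / 2 < s.re →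
      ∃ G : HeightOneSpectrum (𝓞 K) → ℂ, HasProd G (Z s) ∧ (∀ P, ¬ Good P → G P = 1) ∧
        ∀ P, Good P → G P = ∏ v : {v : HeightOneSpectrum (𝓞 F) // below K v = P}, (gf A v.1 s)⁻¹) :
    Cn E Z := by
  classical
  have hfin1 : {v : HeightOneSpectrum (𝓞 F) | ¬ Good (below K v)}.Finite := by
    refine Set.Finite.subset (Set.Finite.biUnion hGood fun P _ =>
      Set.toFinite (Set.range fun v : {v : HeightOneSpectrum (𝓞 F) // below K v = P} => v.1)) ?_
    intro v hv
    rw [Set.mem_iUnion₂]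
    exact ⟨below K v, hv, ⟨v, rfl⟩, rfl⟩
  set T : Finset (HeightOneSpectrum (𝓞 F)) := (hfin1.union hE).toFinset with hT
  have hTm : ∀ v, v ∉ T → Good (below K v) ∧ ∀ s, ef E v s = gf A v s := by
    intro v hv
    rw [hT, Set.Finite.mem_toFinset] at hv
    simp only [Set.mem_union, Set.mem_ofPred_eq, not_or, not_not] at hv
    exact hv
  set H : HeightOneSpectrum (𝓞 F) → ℂ → ℂ := fun v s =>
    if Good (below K v) then gf A v s else 1 with hH
  have hHd : ∀ v, Differentiable ℂ (H v) := by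
    intro v
    simp only [hH]
    split_ifs
    · exact diff_gf A v
    · exact differentiable_const _
  have hHne : ∀ v (s : ℂ), 1 / 2 < s.re → H v s ≠ 0 := by
    intro v s hs
    simp only [hH]
    split_ifs with h
    · exact gf_ne (hA v h) hs
    · exact one_ne_zero
  set L : ℂ → ℂ := fun s => Z s * ∏ v ∈ T, (H v s * (ef E v s)⁻¹) with hL
  have hana : ∀ v, AnalyticAt ℂ (fun s => H v s * (ef E v s)⁻¹) 1 := fun v =>
    ((hHd v).analyticAt 1).mul (((diff_ef E v).analyticAt 1).inv (ef_one E v))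
  have hanaP : AnalyticAt ℂ (fun s => ∏ v ∈ T, (H v s * (ef E v s)⁻¹)) 1 := by
    refine Finset.analyticAt_fun_prod _ fun v _ => hana v
  refine ⟨L, ?_, fun s hs => ?_, (hZ.analyticAt 1).mul hanaP, ?_⟩
  · intro s _
    refine ((hZ.analyticAt s).meromorphicAt).mul ?_
    refine MeromorphicAt.fun_prod fun v _ => ?_
    exact (((hHd v).analyticAt s).meromorphicAt).mul
      (((diff_ef E v).analyticAt s).meromorphicAt).inv
  · obtain ⟨h1, h2⟩ := euler32 E hs
    refine ⟨h1, ?_⟩
    have hs' : 1 / 2 < s.re := by linarith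
    obtain ⟨G, hG1, hG2, hG3⟩ := hZp s hs
    have h3 : HasProd (fun v : HeightOneSpectrum (𝓞 F) => if v ∈ T then
        ef E v s * (H v s)⁻¹ else 1) (∏ v ∈ T, (ef E v s * (H v s)⁻¹)) := by
      have h6 := hasProd_prod_of_ne_finset_one (L := .unconditional _) (s := T)
        (f := fun v : HeightOneSpectrum (𝓞 F) => if v ∈ T then ef E v s * (H v s)⁻¹ else 1)
        (fun v hv => if_neg hv)
      rw [Finset.prod_congr rfl (fun v hv => if_pos hv)] at h6
      exact h6
    have h4 : HasProd (fun v : HeightOneSpectrum (𝓞 F) => (H v s)⁻¹)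
        (E.LSeries s * ∏ v ∈ T, (ef E v s * (H v s)⁻¹)) := by
      refine (h2.mul h3).congr_fun fun v => ?_
      have hef := ef_ne32 E v hs
      by_cases hv : v ∈ T
      · rw [if_pos hv]
        change (H v s)⁻¹ = (ef E v s)⁻¹ * (ef E v s * (H v s)⁻¹)
        rw [← mul_assoc, inv_mul_cancel₀ hef, one_mul]
      · rw [if_neg hv, mul_one]
        obtain ⟨k1, k2⟩ := hTm v hv
        change (H v s)⁻¹ = (ef E v s)⁻¹
        simp only [hH, if_pos k1, k2 s]
    have h5 := (Equiv.sigmaFiberEquiv (below K (F := F))).hasProd_iff.2 h4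
    have h6 : HasProd (fun P : HeightOneSpectrum (𝓞 K) =>
        ∏ v : {v : HeightOneSpectrum (𝓞 F) // below K v = P}, (H v.1 s)⁻¹)
        (E.LSeries s * ∏ v ∈ T, (ef E v s * (H v s)⁻¹)) := by
      refine h5.sigma fun P => ?_
      exact hasProd_fintype _ (.unconditional _)
    have h7 : E.LSeries s * ∏ v ∈ T, (ef E v s * (H v s)⁻¹) = Z s := by
      refine h6.unique (hG1.congr_fun fun P => ?_)
      by_cases hP : Good P
      · rw [hG3 P hP]
        refine Finset.prod_congr rfl fun v _ => ?_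
        have : Good (below K v.1) := by rw [v.2]; exact hP
        simp only [hH, if_pos this]
      · rw [hG2 P hP]
        refine Finset.prod_eq_one fun v _ => ?_
        have : ¬ Good (below K v.1) := by rw [v.2]; exact hP
        simp only [hH, if_neg this, inv_one]
    simp only [hL]
    rw [← h7, mul_assoc, ← Finset.prod_mul_distrib]
    have h8 : ∏ v ∈ T, (ef E v s * (H v s)⁻¹ * (H v s * (ef E v s)⁻¹)) = 1 := by
      refine Finset.prod_eq_one fun v _ => ?_
      have k1 := ef_ne32 E v hs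
      have k2 := hHne v s hs'
      field_simp
    rw [h8, mul_one]
  · have h1 : analyticOrderAt (fun s => ∏ v ∈ T, (H v s * (ef E v s)⁻¹)) 1 = 0 := by
      rw [hanaP.analyticOrderAt_eq_zero]
      refine Finset.prod_ne_zero_iff.2 fun v _ => mul_ne_zero ?_ (inv_ne_zero (ef_one E v))
      exact hHne v 1 (by norm_num)
    have h2 := analyticOrderAt_mul (hZ.analyticAt 1) hanaP
    rw [h1, add_zero] at h2
    exact h2

end two

section three
variable {K F : Type} [Field K] [NumberField K] [Field F] [NumberField F] [Algebra K F]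
  [IsAbelianGalois K F] {σ : K →+* ℂ} {f q : Ideal (𝓞 K)} {ψ : Ideal (𝓞 K) → ℂ}
  {Φ : Ideal (𝓞 K) → Gal(F/K)}

open scoped IsMulCommutative in
/-- **The `L`-function over `F`.** -/
theorem cn_main (hψ : NH σ f ψ) (hF : FA K F q Φ) [Fintype (Gal(F/K) →* ℂˣ)] {B : ℝ}
    {L : (Gal(F/K) →* ℂˣ) → ℂ → ℂ} (hL : Pack f q ψ Φ B L) (E : WeierstrassCurve F)
    (hE : {v : HeightOneSpectrum (𝓞 F) | ¬ ∀ s, ef E v s = gf (AA K ψ) v s}.Finite) :
    Cn E (ZZ L) := by
  classical
  have hfq0 : f * q ≠ ⊥ := mul_ne_zero hψ.ne hF.na.ne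
  refine cn_of (K := K) E (AA K ψ) (fun P => IsCoprime P.asIdeal (f * q)) (bad_finite hfq0)
    (fun v hv => ?_) hE (zz_order hL.diff hL.ord).1 (fun s hs => ?_)
  · have hPq : IsCoprime (below K v).asIdeal q := IsCoprime.of_mul_right_right hv
    rw [aa_eq hψ hF hPq rfl, norm_pow, ← pow_mul, mul_comm, pow_mul, hL.norm _ hv]
    have h1 : Pool.Agent.H921R2.TatePole.nm v =
        Ideal.absNorm (below K v).asIdeal ^ orderOf (Φ (below K v).asIdeal) :=
      (hF.split hPq).1 v rfl
    rw [h1]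
    push_cast
    rfl
  · refine ⟨fun P => ∏ χ : Gal(F/K) →* ℂˣ, (fac f q ψ Φ χ s P *
      (starRingEnd ℂ) (fac f q ψ Φ χ ((starRingEnd ℂ) s) P)), ?_, ?_, ?_⟩
    · refine hasProd_prod fun χ _ => ?_
      refine (hL.prod χ s (by linarith)).mul ?_
      have h1 := hL.prod χ ((starRingEnd ℂ) s) (by rw [Complex.conj_re]; linarith)
      exact h1.map (starRingEnd ℂ) Complex.continuous_conj
    · intro P hP
      refine Finset.prod_eq_one fun χ _ => ?_
      unfold fac
      rw [if_neg hP, if_neg hP, map_one, mul_one]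
    · intro P hP
      exact local_prod hψ hF hP s

end three

end Pool.Agent.H81.TE
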