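import Mathlib
import Pool.Graph.R_seed8.Y696.Jac2

/-!
# The number of points of `y² + δ y = x³` over a finite field of the Eisenstein integers
-/

set_option autoImplicit false

open Complex

namespace Pool.Agent.H81.TE

open Pool.Agent.Y696 Pool.Agent.W192.HK

variable {k : Type} [Field k] [Fintype k] (ρ : eis →+* k)

theorem card_twist {χ : MulChar k eis} (h : χ ^ 3 = 1) (h3 : (3 : k) ≠ 0)
    (hρ : ∀ x : k, x ≠ 0 → ρ (χ x) = x ^ ((Fintype.card k - 1) / 3)) {δ : k} (hδ : δ ≠ 0) :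
    ((Nat.card {p : k × k // p.2 ^ 2 + δ * p.2 = p.1 ^ 3} : ℕ) : eis) =
      Fintype.card k + χ δ ^ 2 * jacobiSum χ χ + χ δ * jacobiSum χ⁻¹ χ⁻¹ := by
  classical
  have e1 : Nat.card {p : k × k // p.2 ^ 2 + δ * p.2 = p.1 ^ 3} =
      ∑ y : k, Nat.card {x : k // x ^ 3 = y ^ 2 + δ * y} := by
    rw [← Nat.card_sigma]
    refine Nat.card_congr
      { toFun := fun p => ⟨p.1.2, p.1.1, p.2.symm⟩
        invFun := fun p => ⟨(p.2.1, p.1), p.2.2.symm⟩
        left_inv := fun p => rfl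
        right_inv := fun p => rfl }
  have hinv : ∀ x : k, χ⁻¹ x = χ x ^ 2 := by
    intro x
    have : χ⁻¹ = χ ^ 2 := by
      rw [inv_eq_iff_mul_eq_one, ← pow_succ', h]
    rw [this, MulChar.pow_apply' _ two_ne_zero]
  have hδ3 := chi_one h hδ
  rw [e1]
  push_cast
  simp only [card_cube ρ h h3 hρ]
  rw [Finset.sum_add_distrib, Finset.sum_add_distrib]
  have hsc : ∀ g : k → eis, ∑ y : k, g (y ^ 2 + δ * y) = ∑ y : k, g (δ ^ 2 * (-1 * (y * (1 - y)))) := by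
    intro g
    have hb : Function.Bijective (fun y : k => -δ * y) := by
      have : -δ ≠ 0 := neg_ne_zero.2 hδ
      exact mulLeft_bijective₀ _ this
    rw [← Function.Bijective.sum_comp hb (fun y => g (y ^ 2 + δ * y))]
    refine Finset.sum_congr rfl fun y _ => ?_
    congr 1
    ring
  congr 1
  · congr 1
    · simp
    · rw [hsc (fun t => χ t)]
      unfold jacobiSum
      rw [Finset.mul_sum]
      refine Finset.sum_congr rfl fun y _ => ?_
      rw [map_mul χ (δ ^ 2), map_mul χ (-1), chi_neg h, one_mul, map_mul, map_pow]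
  · rw [hsc (fun t => χ t ^ 2)]
    unfold jacobiSum
    rw [Finset.mul_sum]
    refine Finset.sum_congr rfl fun y _ => ?_
    rw [map_mul χ (δ ^ 2), map_mul χ (-1), chi_neg h, one_mul, map_mul χ y, map_pow, hinv, hinv]
    linear_combination (χ δ * χ y ^ 2 * χ (1 - y) ^ 2) * hδ3

/-- the number of solutions of `y² + δ y = x³` -/
theorem card_aff_twist {χ : MulChar k eis} (h : χ ^ 3 = 1) (h1 : χ ≠ 1) (h3 : (3 : k) ≠ 0)
    (hρ : ∀ x : k, x ≠ 0 → ρ (χ x) = x ^ ((Fintype.card k - 1) / 3)) {δ : k} (hδ : δ ≠ 0)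
    {π : eis} (hπ : Prime π) (hπ1 : π - 1 ∈ (sp 3 : Ideal eis))
    (hker : ∀ x, ρ x = 0 ↔ π ∣ x) {f : ℕ} (hq : ((Fintype.card k : ℕ) : eis) = (π * cj π) ^ f) :
    ((Nat.card {p : k × k // p.2 ^ 2 + δ * p.2 = p.1 ^ 3} : ℕ) : ℂ) =
      Fintype.card k - ((χ δ : eis) : ℂ) ^ 2 * (π : ℂ) ^ f -
        (starRingEnd ℂ) (((χ δ : eis) : ℂ) ^ 2 * (π : ℂ) ^ f) := by
  have h4 := card_twist ρ h h3 hρ hδ
  obtain ⟨h5, h6⟩ := jac_eq ρ h3 h h1 hρ hπ hπ1 hker hq
  rw [h5, h6] at h4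
  have h7 := congrArg (fun t : eis => (t : ℂ)) h4
  push_cast at h7
  have hδ3 := chi_one h hδ
  have hδ3' : ((χ δ : eis) : ℂ) ^ 3 = 1 := by
    have := congrArg (fun t : eis => (t : ℂ)) hδ3
    push_cast at this
    exact this
  have hu : ((χ δ : eis) : ℂ) * (starRingEnd ℂ) ((χ δ : eis) : ℂ) = 1 := by
    rw [Complex.mul_conj]
    have : ‖((χ δ : eis) : ℂ)‖ = 1 := Complex.norm_eq_one_of_pow_eq_one hδ3' (by norm_num)
    rw [Complex.normSq_eq_norm_sq, this]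
    norm_num
  have hc : (starRingEnd ℂ) (((χ δ : eis) : ℂ) ^ 2) = ((χ δ : eis) : ℂ) := by
    rw [map_pow]
    calc (starRingEnd ℂ) ((χ δ : eis) : ℂ) ^ 2
        = (((χ δ : eis) : ℂ) ^ 3) * (starRingEnd ℂ) ((χ δ : eis) : ℂ) ^ 2 := by rw [hδ3', one_mul]
      _ = (((χ δ : eis) : ℂ) * (starRingEnd ℂ) ((χ δ : eis) : ℂ)) ^ 2 * ((χ δ : eis) : ℂ) := by ring
      _ = _ := by rw [hu, one_pow, one_mul]
  rw [h7, cj_coe, map_mul, hc, map_pow]
  ring

end Pool.Agent.H81.TE
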