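import Pool.Agent.H81.TE.Loc

/-!
# The forms of `y² + y = x³` split by an extension of odd degree
-/

set_option autoImplicit false
set_option linter.unusedSectionVars false

namespace Pool.Agent.H81.TE

open NumberField IsDedekindDomain WeierstrassCurve

theorem form_cub {k K : Type} [Field k] [CharZero k] [Field K] [Algebra k K]
    [FiniteDimensional k K] (hm : Odd (Module.finrank k K)) (W : WeierstrassCurve k)
    (C : VariableChange K) (hC : C • W.map (algebraMap k K) = Ec (1 : K)) :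
    ∃ (d : k) (θ : K), d ≠ 0 ∧ θ ^ 3 = algebraMap k K d ∧
      ∃ C' : VariableChange k, C' • W = Ec d := by
  have hch : CharZero K := charZero_of_injective_algebraMap (algebraMap k K).injective
  have hu : ((C.u⁻¹ : Kˣ) : K) ≠ 0 := (C.u⁻¹).ne_zero
  have h4 : W.c₄ = 0 := by
    have h1 := congrArg WeierstrassCurve.c₄ hC
    rw [variableChange_c₄, map_c₄] at h1
    have h2 : (Ec (1 : K)).c₄ = 0 := by
      simp [WeierstrassCurve.c₄, WeierstrassCurve.b₂, WeierstrassCurve.b₄, Ec]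
    rw [h2] at h1
    rcases mul_eq_zero.1 h1 with h3 | h3
    · exact absurd h3 (pow_ne_zero 4 hu)
    · exact (map_eq_zero _).1 h3
  have : Invertible (2 : k) := invertibleOfNonzero two_ne_zero
  have : Invertible (3 : k) := invertibleOfNonzero three_ne_zero
  obtain ⟨C1, hC1⟩ := W.exists_variableChange_isShortNF
  set V := C1 • W with hV
  have hV4 : V.c₄ = 0 := by rw [hV, variableChange_c₄, h4, mul_zero]
  have ha4 : V.a₄ = 0 := by
    have h1 : V.c₄ = -48 * V.a₄ := V.c₄_of_isShortNF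
    rw [hV4] at h1
    have h48 : (48 : k) ≠ 0 := by norm_num
    have h2 : (48 : k) * V.a₄ = 0 := by linear_combination h1
    exact (mul_eq_zero.1 h2).resolve_left h48
  have hVe : V = ⟨0, 0, 0, 0, V.a₆⟩ := by
    ext
    · exact V.a₁_of_isShortNF
    · exact V.a₂_of_isShortNF
    · exact V.a₃_of_isShortNF
    · exact ha4
    · rfl
  set D := V.a₆ with hD
  -- the sixth root
  have h6 : V.c₆ = -864 * D := V.c₆_of_isShortNF
  have hW6 : W.c₆ = ((C1⁻¹).u⁻¹ : kˣ) ^ 6 * (-864 * D) := by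
    have h1 : W = C1⁻¹ • V := by rw [hV, inv_smul_smul]
    rw [← h6, h1, variableChange_c₆]
  have h7 := congrArg WeierstrassCurve.c₆ hC
  rw [variableChange_c₆, map_c₆, hW6] at h7
  have h8 : (Ec (1 : K)).c₆ = -216 := by
    simp [WeierstrassCurve.c₆, WeierstrassCurve.b₂, WeierstrassCurve.b₄, WeierstrassCurve.b₆, Ec]
  rw [h8] at h7
  obtain ⟨x, hx⟩ : ∃ x : K, x = ((C.u⁻¹ : Kˣ) : K) * algebraMap k K (((C1⁻¹).u⁻¹ : kˣ) : k) :=
    ⟨_, rfl⟩
  have h9 : x ^ 6 * (4 * algebraMap k K D) = 1 := by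
    rw [map_mul, map_pow, map_mul, map_neg, map_ofNat] at h7
    rw [hx]
    have h216 : (216 : K) ≠ 0 := by norm_num
    apply mul_left_cancel₀ h216
    linear_combination -h7
  have hx0 : x ≠ 0 := by
    rintro rfl
    rw [zero_pow (by norm_num), zero_mul] at h9
    exact zero_ne_one h9
  obtain ⟨γ, hγ⟩ : ∃ γ : K, γ = (2 * x)⁻¹ := ⟨_, rfl⟩
  have hγ6 : algebraMap k K (D / 16) = γ ^ 6 := by
    rw [map_div₀, map_ofNat, hγ]
    field_simp
    linear_combination 16 * h9
  have hγ0 : γ ≠ 0 := by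
    rw [hγ]
    exact inv_ne_zero (mul_ne_zero two_ne_zero hx0)
  -- a square root in the small field
  obtain ⟨d, hd⟩ : ∃ d : k, d ^ 2 = D / 16 := by
    by_contra hcon
    push Not at hcon
    have hirr : Irreducible (Polynomial.X ^ 2 - Polynomial.C (D / 16)) := by
      rw [X_pow_sub_C_irreducible_iff_of_prime Nat.prime_two]
      exact fun b => hcon b
    have hmin : minpoly k (γ ^ 3) = Polynomial.X ^ 2 - Polynomial.C (D / 16) := by
      refine (minpoly.eq_of_irreducible_of_monic hirr ?_ (Polynomial.monic_X_pow_sub_C _ two_ne_zero)).symm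
      rw [map_sub, map_pow, Polynomial.aeval_X, Polynomial.aeval_C, hγ6]
      ring
    have hint : _root_.IsIntegral k (γ ^ 3) := Algebra.IsIntegral.isIntegral _
    have h3 := IntermediateField.adjoin.finrank hint
    rw [hmin, Polynomial.natDegree_X_pow_sub_C] at h3
    have h10 : 2 ∣ Module.finrank k K := by
      rw [← h3]
      exact ⟨_, (Module.finrank_mul_finrank k (IntermediateField.adjoin k {γ ^ 3}) K).symm⟩
    exact (Nat.not_even_iff_odd.2 hm) (even_iff_two_dvd.2 h10)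
  obtain ⟨d1, hd1, hd2⟩ : ∃ d1 : k, algebraMap k K d1 = γ ^ 3 ∧ d1 ^ 2 = D / 16 := by
    have h11 : algebraMap k K d ^ 2 = (γ ^ 3) ^ 2 := by
      rw [← map_pow, hd, hγ6]
      ring
    rcases sq_eq_sq_iff_eq_or_eq_neg.1 h11 with h12 | h12
    · exact ⟨d, h12, hd⟩
    · exact ⟨-d, by rw [map_neg, h12, neg_neg], by rw [neg_sq, hd]⟩
  have hd0 : d1 ≠ 0 := by
    rintro rfl
    rw [map_zero] at hd1
    exact pow_ne_zero 3 hγ0 hd1.symm
  refine ⟨8 * d1, 2 * γ, mul_ne_zero (by norm_num) hd0, ?_, ⟨1, 0, 0, 4 * d1⟩ * C1, ?_⟩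
  · rw [map_mul, hd1, map_ofNat]
    ring
  · rw [mul_smul, ← hV, hVe]
    have hD16 : D = 16 * d1 ^ 2 := by
      rw [hd2]
      ring
    unfold Ec
    ext <;> simp [variableChange_a₁, variableChange_a₂, variableChange_a₃, variableChange_a₄,
      variableChange_a₆]
    · ring
    · rw [hD16]
      ring

theorem form_int {k K : Type} [Field k] [NumberField k] [Field K] [NumberField K] [Algebra k K]
    (hm : Odd (Module.finrank k K)) (W : WeierstrassCurve k)
    (C : VariableChange K) (hC : C • W.map (algebraMap k K) = Ec (1 : K)) :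
    ∃ (δ : 𝓞 k) (ε : 𝓞 K), δ ≠ 0 ∧ ε ^ 3 = algebraMap (𝓞 k) (𝓞 K) δ ∧
      ∃ C' : VariableChange k, W = C' • Ec (δ : k) := by
  have : FiniteDimensional k K := Module.Finite.of_restrictScalars_finite ℚ k K
  obtain ⟨d, θ, hd0, hθ, C', hC'⟩ := form_cub hm W C hC
  obtain ⟨a, b, hb, hab⟩ := IsFractionRing.div_surjective (A := 𝓞 k) d
  have hb0 : b ≠ 0 := nonZeroDivisors.ne_zero hb
  have hbk : (b : k) ≠ 0 := by
    intro h
    exact hb0 (RingOfIntegers.coe_injective (h.trans (map_zero _).symm))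
  have hd : d * (b : k) ^ 3 = ((a * b ^ 2 : 𝓞 k) : k) := by
    have h1 : d = (a : k) / (b : k) := hab.symm
    rw [h1]
    push_cast
    field_simp
  have hint : _root_.IsIntegral ℤ (θ * algebraMap k K (b : k)) := by
    have h1 : _root_.IsIntegral ℤ ((θ * algebraMap k K (b : k)) ^ 3) := by
      have h2 : (θ * algebraMap k K (b : k)) ^ 3 = algebraMap k K ((a * b ^ 2 : 𝓞 k) : k) := by
        rw [mul_pow, hθ, ← map_pow, ← map_mul, hd]
      rw [h2]
      exact (RingOfIntegers.isIntegral_coe _).map (algebraMap k K : k →+* K).toIntAlgHom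
    exact h1.of_pow (by norm_num)
  refine ⟨a * b ^ 2, ⟨θ * algebraMap k K (b : k), hint⟩, ?_, ?_, ?_⟩
  · intro h0
    rw [h0] at hd
    have : d * (b : k) ^ 3 = 0 := hd
    exact mul_ne_zero hd0 (pow_ne_zero 3 hbk) this
  · apply RingOfIntegers.coe_injective
    show (θ * algebraMap k K (b : k)) ^ 3 = algebraMap k K ((a * b ^ 2 : 𝓞 k) : k)
    rw [mul_pow, hθ, ← map_pow, ← map_mul, hd]
  · refine ⟨(⟨(Units.mk0 (b : k) hbk)⁻¹, 0, 0, 0⟩ * C')⁻¹, ?_⟩
    rw [eq_inv_smul_iff, mul_smul, hC', ← hd]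
    unfold Ec
    ext <;> simp [variableChange_a₁, variableChange_a₂, variableChange_a₃, variableChange_a₄,
      variableChange_a₆]
    ring

end Pool.Agent.H81.TE
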