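import Pool.Agent.H81.TE.All
import Pool.Graph.R_pool_sql_team_seeded_35f281b4.K7.H65.G4.Tors
import Pool.Graph.R_pool_sql_team_seeded_35f281b4.K7.H65.G4.Lfun
import Pool.Graph.R_pool_sql_team_seeded_35f281b4.K7.H65.G4.Two
import Pool.Graph.R_pool_sql_team_seeded_35f281b4.K7.H70.SM.B
import Pool.Graph.R_pool_sql_team_seeded_35f281b4.K7.H73.L3.I

/-!
# The curve of genus two over the intermediate fields
-/

set_option autoImplicit false
set_option linter.unusedSectionVars false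

namespace Pool.Agent.H81.TE

open NumberField IsDedekindDomain WeierstrassCurve Polynomial
open Pool.Agent.Y696
open Pool.Agent.K7.H45.CM

/-- `2` is not a square in an extension of odd degree of `ℚ(√-3)`. -/
lemma not_sq_odd {F K : Type} [Field F] [NumberField F] [IsCyclotomicExtension {3} ℚ F] [Field K]
    [NumberField K] [Algebra F K] (hn : Odd (Module.finrank F K)) : ¬ IsSquare (2 : K) := by
  have hF : ¬ IsSquare (2 : F) := Pool.Agent.K7.H65.G4.not_sq_two (Pool.Agent.K7.H73.L3.gz3 F).two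
  rintro ⟨r, hr⟩
  have hirr : Irreducible (X ^ 2 - C (2 : F)) := by
    rw [X_pow_sub_C_irreducible_iff_of_prime Nat.prime_two]
    exact fun b hb => hF ⟨b, by rw [← hb, pow_two]⟩
  have hroot : aeval r (X ^ 2 - C (2 : F)) = 0 := by
    rw [map_sub, map_pow, aeval_X, aeval_C, map_ofNat, hr, pow_two, sub_self]
  have hmin : minpoly F r = X ^ 2 - C (2 : F) :=
    (minpoly.eq_of_irreducible_of_monic hirr hroot (monic_X_pow_sub_C _ two_ne_zero)).symm
  have hint : IsIntegral F r := Algebra.IsIntegral.isIntegral r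
  have h1 := IntermediateField.adjoin.finrank hint
  rw [hmin, natDegree_X_pow_sub_C] at h1
  have h2 : 2 ∣ Module.finrank F K := by
    have h3 := Module.finrank_mul_finrank F (IntermediateField.adjoin F {r}) K
    rw [h1] at h3
    exact ⟨_, h3.symm⟩
  rw [Nat.odd_iff] at hn
  omega

/-- unramified at three, for intermediate fields -/
lemma un3_mid {F k K : Type} [Field F] [NumberField F] [Field K] [NumberField K] [Algebra F K]
    [Field k] [NumberField k] [Algebra F k] [Algebra k K] [IsScalarTower F k K]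
    (h : Pool.Agent.N883.T.Un3 F K) : Pool.Agent.N883.T.Un3 F k := by
  intro v hv
  obtain ⟨w, hlo⟩ := exists_above (F := k) (K := K) v
  have hw : (3 : 𝓞 K) ∈ w.asIdeal := by
    have h1 : v.asIdeal = w.asIdeal.under (𝓞 k) := hlo.over
    have h2 : (3 : 𝓞 k) ∈ w.asIdeal.under (𝓞 k) := h1 ▸ hv
    rw [Ideal.under_def, Ideal.mem_comap, map_ofNat] at h2
    exact h2
  have h3 := h w hw
  have hp := w.isPrime
  have hp2 := v.isPrime
  exact Algebra.IsUnramifiedAt.of_liesOver (R := 𝓞 F) v.asIdeal w.asIdeal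

/-- `E` has additive reduction at the places above three. -/
lemma add3_of_un3 {F K : Type} [Field F] [NumberField F] [IsCyclotomicExtension {3} ℚ F] [Field K]
    [NumberField K] [Algebra F K] (h3 : Pool.Agent.N883.T.Un3 F K) : Pool.Agent.K7.H70.SM.Add3 K := by
  apply Pool.Agent.K7.H70.SM.add3_of
  intro v hv g hg
  obtain ⟨θ, hθ⟩ := Pool.Agent.N883.T.exists_theta F
  have h4 := Pool.Agent.N883.T.val_theta3 h3 v hv hθ
  have h5 : v.valuation K 3 = WithZero.exp (-2 : ℤ) := by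
    have h6 : (algebraMap F K θ) ^ 2 = -3 := by rw [← map_pow, hθ, map_neg, map_ofNat]
    have h7 := congrArg (v.valuation K) h6
    rw [map_pow, h4, Valuation.map_neg, ← WithZero.exp_nsmul] at h7
    rw [← h7]
    norm_num
  have hg0 : g ≠ 0 := by
    rintro rfl
    rw [zero_pow (by norm_num)] at hg
    exact (Valuation.ne_zero_iff _).2 (by norm_num : (3 : K) ≠ 0) hg
  have hg1 : g = WithZero.exp (WithZero.log g) := (WithZero.exp_log hg0).symm
  rw [h5, hg1, ← WithZero.exp_nsmul, WithZero.exp_inj] at hg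
  simp only [nsmul_eq_mul] at hg
  push_cast at hg
  omega

/-- **The curve of genus two over the intermediate fields.** -/
theorem genus_two (F K : Type) [Field F] [NumberField F] [IsCyclotomicExtension {3} ℚ F] [Field K]
    [NumberField K] [Algebra F K] [IsGalois F K] (n : ℕ) (hn0 : n ≠ 0)
    (hn : Module.finrank F K = 3 ^ n) (S : Finset (𝓞 F))
    (hunr : ∀ w : HeightOneSpectrum (𝓞 K), (∀ π ∈ S, algebraMap (𝓞 F) (𝓞 K) π ∉ w.asIdeal) →
      Algebra.IsUnramifiedAt (𝓞 F) w.asIdeal)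
    (hS : OnePrime F S ∨ SeveralPrimes F K n S)
    (k : Type) [Field k] [NumberField k] [Algebra F k] [Algebra k K] [IsScalarTower F k K] :
    ¬ IsSquare (2 : k) ∧ (∃ _ : IsDomain (Pool.Agent.TH943.HJ.CR (Pool.Agent.K7.H65.G4.sx k)),
      IsDedekindDomain (Pool.Agent.TH943.HJ.CR (Pool.Agent.K7.H65.G4.sx k)) ∧
        ∃ n : ℕ, 0 < n ∧ ∀ a : ClassGroup (Pool.Agent.TH943.HJ.CR (Pool.Agent.K7.H65.G4.sx k)), a ^ n = 1) ∧
    ∃ Λ : ℂ → ℂ, Pool.Agent.K7.H65.G4.IsLX k Λ ∧ AnalyticAt ℂ Λ 1 ∧ Λ 1 ≠ 0 := by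
  obtain ⟨ζ, hζ⟩ := IsCyclotomicExtension.exists_isPrimitiveRoot ℚ F
    (Set.mem_singleton 3) (by norm_num)
  obtain ⟨hun3, -, -⟩ := input F K n hn0 hn S hunr hS
  have hun : Pool.Agent.N883.T.Un3 F k := un3_mid (K := K) hun3
  have hC : (1 : VariableChange K) • (Ec (1 : k)).map (algebraMap k K) = Ec (1 : K) := by
    rw [one_smul]
    ext <;> simp [Ec, WeierstrassCurve.map]
  obtain ⟨hfin, L, a1, a2, a3, a4⟩ := forms F K n hn0 hn S hunr hS k (Ec (1 : k)) 1 hC
  obtain ⟨σ, hσ⟩ := exists_emb hζ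
  have hadd := add3_of_un3 hun
  have hH := Pool.Agent.K7.H70.SM.hasse3
    ((algebraMap (𝓞 F) (𝓞 k)).comp (isoE hζ σ hσ).symm.toRingHom) hadd
  have : FiniteDimensional k K := Module.Finite.of_restrictScalars_finite ℚ k K
  have hodd : Odd (Module.finrank F k) := by
    have h1 : Odd (3 ^ n) := Odd.pow (by decide)
    rw [← hn, ← Module.finrank_mul_finrank F k K] at h1
    exact (Nat.odd_mul.1 h1).1
  have h2 : ¬ IsSquare (2 : k) := not_sq_odd hodd
  refine ⟨h2, ?_, ?_⟩
  · have : Finite (Pool.Agent.K7.H65.G4.E27 k).toAffine.Point := hfin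
    have hd : IsDomain (Pool.Agent.TH943.HJ.CR (Pool.Agent.K7.H65.G4.sx k)) :=
      Pool.Agent.K7.H65.G4.isDomain (Pool.Agent.K7.H65.G4.ns_sx h2)
    exact ⟨hd, Pool.Agent.K7.H65.G4.ded_sx h2, Pool.Agent.K7.H65.G4.class_exp h2⟩
  · exact Pool.Agent.K7.H65.G4.exists_LX hH L a1 a3 a4 fun s hs => (a2 s hs).2

end Pool.Agent.H81.TE
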