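import Mathlib
import Pool.Graph.R_seed8.Y696.Jac2
import Pool.Graph.R_pool_sql_team_seeded_35f281b4.K7.H45.CM.Ng
import Pool.Graph.R_pool_sql_team_seeded_35f281b4.K7.H45.CM.Core2
import Pool.Agent.H62.EX.Uni

/-!
# The Hecke character of `y² + y = x³` over `ℚ(√-3)`, and its twists
-/

set_option autoImplicit false
set_option linter.unusedSectionVars false

open Complex

namespace Pool.Agent.H81.TE

open Pool.Agent.Y696 NumberField IsDedekindDomain
open Pool.Agent.W192.HK (sp HC)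
open Pool.Agent.K7.H45.CM (NH NA)

section
variable {F : Type} [Field F] [NumberField F] [IsCyclotomicExtension {3} ℚ F] {ζ : F}
  (hζ : IsPrimitiveRoot ζ 3) {σ : F →+* ℂ} (hσ : σ ζ = om)

/-- the Hecke character of `y² + y = x³` -/
noncomputable def psF (I : Ideal (𝓞 F)) : ℂ := psi (I.map (isoE hζ σ hσ : 𝓞 F →+* eis))

theorem map_span (a : 𝓞 F) : (Ideal.span {a}).map (isoE hζ σ hσ : 𝓞 F →+* eis) =
    sp (isoE hζ σ hσ a) := by
  rw [Ideal.map_span, Set.image_singleton]
  rfl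

theorem map_top_iff (I : Ideal (𝓞 F)) :
    I.map (isoE hζ σ hσ : 𝓞 F →+* eis) = ⊤ ↔ I = ⊤ := by
  constructor
  · intro h
    have h1 := Ideal.comap_map_of_bijective (isoE hζ σ hσ : 𝓞 F →+* eis) (isoE hζ σ hσ).bijective
      (I := I)
    rw [h, Ideal.comap_top] at h1
    exact h1.symm
  · rintro rfl
    exact Ideal.map_top _

theorem map_bot_iff (I : Ideal (𝓞 F)) :
    I.map (isoE hζ σ hσ : 𝓞 F →+* eis) = ⊥ ↔ I = ⊥ :=
  Ideal.map_eq_bot_iff_of_injective (isoE hζ σ hσ).injective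

theorem coprime_iff (I : Ideal (𝓞 F)) :
    IsCoprime (I.map (isoE hζ σ hσ : 𝓞 F →+* eis)) (sp (3 : eis)) ↔ IsCoprime I (Ideal.span {3}) := by
  have h3 : (sp (3 : eis)) = (Ideal.span {(3 : 𝓞 F)}).map (isoE hζ σ hσ : 𝓞 F →+* eis) := by
    rw [map_span, map_ofNat]
  rw [h3, Ideal.isCoprime_iff_sup_eq, Ideal.isCoprime_iff_sup_eq, ← Ideal.map_sup, map_top_iff]

theorem nh_psF : NH σ (Ideal.span {(3 : 𝓞 F)}) (psF hζ hσ) where
  ne := by
    rw [Ne, Ideal.span_singleton_eq_bot]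
    have : ((3 : ℕ) : 𝓞 F) ≠ 0 := Nat.cast_ne_zero.2 (by norm_num)
    exact_mod_cast this
  mul := fun I J => by
    unfold psF
    rw [Ideal.map_mul, hc_psi.mul]
  zero := fun I => by
    unfold psF
    rw [hc_psi.zero, map_bot_iff, coprime_iff]
  princ := fun α hα h => by
    unfold psF
    rw [map_span, hc_psi.princ]
    · rw [pow_one, isoE_coe]
    · intro h0
      exact hα ((map_eq_zero_iff _ (isoE hζ σ hσ).injective).1 h0)
    · rw [Ideal.mem_span_singleton] at h ⊢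
      obtain ⟨t, ht⟩ := h
      refine ⟨isoE hζ σ hσ t, ?_⟩
      rw [← map_one (isoE hζ σ hσ), ← map_sub, ht, map_mul, map_ofNat]

/-- the value at a prime -/
theorem psF_prime {π : 𝓞 F} (h : (3 : 𝓞 F) ∣ π - 1) : psF hζ hσ (Ideal.span {π}) = σ π := by
  unfold psF
  rw [map_span, psi_prim, isoE_coe]
  rw [Ideal.mem_span_singleton]
  obtain ⟨t, ht⟩ := h
  refine ⟨isoE hζ σ hσ t, ?_⟩
  rw [← map_one (isoE hζ σ hσ), ← map_sub, ht, map_mul, map_ofNat]

/-- `psF` at the ideal `(α)`, `α` prime to three, is `α` up to a sixth root of unity -/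
theorem psF_six (α : 𝓞 F) (h0 : α ≠ 0) (h : IsCoprime (Ideal.span {α}) (Ideal.span {(3 : 𝓞 F)})) :
    psF hζ hσ (Ideal.span {α}) ^ 6 = (σ α) ^ 6 := by
  obtain ⟨β', hβ, hβ1⟩ := exists_prim ((coprime_iff hζ hσ _).2 h)
  obtain ⟨β, rfl⟩ := (isoE hζ σ hσ).surjective β'
  rw [map_span, Ideal.span_singleton_eq_span_singleton] at hβ
  have h3 : (3 : 𝓞 F) ∣ β - 1 := by
    rw [Ideal.mem_span_singleton] at hβ1
    obtain ⟨t, ht⟩ := hβ1
    obtain ⟨t, rfl⟩ := (isoE hζ σ hσ).surjective t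
    refine ⟨t, (isoE hζ σ hσ).injective ?_⟩
    rw [map_sub, map_one, ht, map_mul, map_ofNat]
  have hass : Associated α β := by
    obtain ⟨u, hu⟩ := hβ
    refine ⟨Units.map ((isoE hζ σ hσ).symm : eis →* 𝓞 F) u, (isoE hζ σ hσ).injective ?_⟩
    rw [map_mul, ← hu]
    congr 1
    exact (isoE hζ σ hσ).apply_symm_apply _
  have hsp : Ideal.span {α} = Ideal.span {β} := Ideal.span_singleton_eq_span_singleton.2 hass
  rw [hsp, psF_prime hζ hσ h3]
  obtain ⟨u, hu⟩ := hass
  have h6 : (u : 𝓞 F) ^ 6 = 1 := Pool.Agent.H62.EX.unit_six u.isUnit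
  have h7 : β ^ 6 = α ^ 6 := by rw [← hu, mul_pow, h6, mul_one]
  have h8 := congrArg (fun x : 𝓞 F => σ (x : F)) h7
  simp only [map_pow] at h8
  exact h8

end

open Classical in
/-- the twist of a Hecke character -/
theorem nh_twist {K : Type} [Field K] [NumberField K] {σ : K →+* ℂ} {f q : Ideal (𝓞 K)}
    {ψ : Ideal (𝓞 K) → ℂ} (hψ : NH σ f ψ) {Γ : Type} [CommGroup Γ] {Φ : Ideal (𝓞 K) → Γ}
    (hΦ : NA q Φ) (χ : Γ →* ℂˣ) :
    NH σ (f * q) (fun I => if IsCoprime I q then ψ I * ((χ (Φ I) : ℂˣ) : ℂ) else 0) where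
  ne := mul_ne_zero hψ.ne hΦ.ne
  mul := fun I J => by
    by_cases hI : IsCoprime I q
    · by_cases hJ : IsCoprime J q
      · rw [if_pos (IsCoprime.mul_left hI hJ), if_pos hI, if_pos hJ, hψ.mul]
        by_cases hI0 : I = ⊥
        · have : ψ I = 0 := (hψ.zero I).2 (Or.inl hI0)
          rw [this, zero_mul, zero_mul, zero_mul, zero_mul]
        · by_cases hJ0 : J = ⊥
          · have : ψ J = 0 := (hψ.zero J).2 (Or.inl hJ0)
            rw [this, mul_zero, zero_mul, zero_mul, mul_zero]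
          · rw [hΦ.mul I J hI0 hJ0 hI hJ, map_mul, Units.val_mul]
            ring
      · rw [if_neg (fun h => hJ (IsCoprime.of_mul_left_right h)), if_neg hJ, mul_zero]
    · rw [if_neg (fun h => hI (IsCoprime.of_mul_left_left h)), if_neg hI, zero_mul]
  zero := fun I => by
    by_cases hI : IsCoprime I q
    · rw [if_pos hI, mul_eq_zero, hψ.zero]
      have h1 : ((χ (Φ I) : ℂˣ) : ℂ) ≠ 0 := (χ (Φ I)).ne_zero
      constructor
      · rintro (h | h)
        · rcases h with h | h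
          · exact Or.inl h
          · exact Or.inr fun h2 => h (IsCoprime.of_mul_right_left h2)
        · exact absurd h h1
      · rintro (h | h)
        · exact Or.inl (Or.inl h)
        · refine Or.inl (Or.inr fun h2 => h (IsCoprime.mul_right h2 hI))
    · rw [if_neg hI]
      exact ⟨fun _ => Or.inr fun h2 => hI (IsCoprime.of_mul_right_right h2), fun _ => rfl⟩
  princ := fun α hα h => by
    have hf : α - 1 ∈ f := (Ideal.mul_le_right (I := q) (J := f)) (by rw [mul_comm]; exact h)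
    have hq : α - 1 ∈ q := (Ideal.mul_le_right (I := f) (J := q)) h
    have hc : IsCoprime (Ideal.span {α}) q := by
      rw [Ideal.isCoprime_iff_exists]
      exact ⟨α, Ideal.mem_span_singleton_self α, 1 - α, by
        have := q.neg_mem hq
        rwa [neg_sub] at this, by ring⟩
    rw [if_pos hc, hψ.princ α hα hf, hΦ.one α hα hq, map_one, Units.val_one, mul_one]

end Pool.Agent.H81.TE
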