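import Pool.Agent.H81.TE.Cub
import Pool.Agent.H81.TE.Psi
import Pool.Graph.R_pool_sql_team_seeded_35f281b4.K7.H70.TW.G
import Pool.Graph.R_pool_sql_team_seeded_35f281b4.K7.H45.CM.Ng

/-!
# The local factors of the curves `y² + δ y = x³`
-/

set_option autoImplicit false
set_option linter.unusedSectionVars false

namespace Pool.Agent.H81.TE

open NumberField IsDedekindDomain IsLocalRing WeierstrassCurve
open Pool.Agent.Y696
open Pool.Agent.W192.HK (sp)
open Pool.Agent.W189.NF (aV eV aLoc eLoc redMap redMap_eq_zero redMap_surjective Ov card_res finite_res)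
open Pool.Agent.H921R2.TatePole (nm two_le_nm)
open Pool.Agent.Y688 (nsol)
open Pool.Agent.K7.H70.TW (coe_ov)
open Pool.Agent.K7.H45.CM (ef gf below)

/-- the curve `y² + δ y = x³` -/
def Ec {R : Type*} [CommRing R] (δ : R) : WeierstrassCurve R := ⟨0, 0, δ, 0, 0⟩

lemma Ec_map {R S : Type*} [CommRing R] [CommRing S] (f : R →+* S) (δ : R) :
    (Ec δ).map f = Ec (f δ) := by
  unfold Ec WeierstrassCurve.map
  simp only [map_zero]

lemma Ec_Δ {R : Type*} [CommRing R] (δ : R) : (Ec δ).Δ = -27 * δ ^ 4 := by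
  unfold Ec WeierstrassCurve.Δ WeierstrassCurve.b₂ WeierstrassCurve.b₄ WeierstrassCurve.b₆
    WeierstrassCurve.b₈
  simp only
  ring

section
variable {k : Type} [Field k] [NumberField k]

/-- the coefficients of a curve with the model `y² + δ y = x³` -/
theorem aV_cub {v : HeightOneSpectrum (𝓞 k)} (h3 : (3 : 𝓞 k) ∉ v.asIdeal)
    {W : WeierstrassCurve k} {C : VariableChange k} {δ : 𝓞 k}
    (hδ : δ ∉ v.asIdeal) (hW : W = C • Ec (δ : k)) :
    aV W v = (nm v : ℤ) - nsol (Ec (redMap v δ)) ∧ eV W v = (nm v : ℤ) := by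
  have hfin := finite_res v
  have hΔ : IsUnit (Ec (algebraMap (𝓞 k) (Ov v) δ)).Δ := by
    rw [← residue_ne_zero_iff_isUnit, Ec_Δ]
    have e1 : residue (Ov v) (-27 * (algebraMap (𝓞 k) (Ov v) δ) ^ 4) =
        redMap v (-(3 ^ 3 * δ ^ 4)) := by
      show _ = residue (Ov v) (algebraMap (𝓞 k) (Ov v) (-(3 ^ 3 * δ ^ 4)))
      congr 1
      simp only [map_neg, map_mul, map_pow, map_ofNat]
      ring
    rw [e1, Ne, redMap_eq_zero]
    intro h1
    have h2 := v.asIdeal.neg_mem h1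
    rw [neg_neg] at h2
    rcases v.isPrime.mem_or_mem h2 with h4 | h4
    · exact h3 (v.isPrime.mem_of_pow_mem _ h4)
    · exact hδ (v.isPrime.mem_of_pow_mem _ h4)
  have hW' : W.baseChange (v.adicCompletion k) =
      (C.map (algebraMap k (v.adicCompletion k))) •
        (Ec (algebraMap (𝓞 k) (Ov v) δ)).map
          (algebraMap (Ov v) (v.adicCompletion k)) := by
    have e1 : W.baseChange (v.adicCompletion k) = W.map (algebraMap k (v.adicCompletion k)) := rfl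
    rw [e1, hW, ← map_variableChange, Ec_map, Ec_map, coe_ov]
  obtain ⟨h6, h7⟩ := Pool.Agent.K7.H89.TW.aLoc_model (Ov v) _ _ _ hΔ hW'
  have h10 : Nat.card (ResidueField (Ov v)) = nm v := card_res v
  rw [Ec_map, h10] at h6
  rw [h10] at h7
  exact ⟨h6, h7⟩

lemma nsol_Ec {κ : Type} [Field κ] (δ : κ) :
    nsol (Ec δ) = Nat.card {p : κ × κ // p.2 ^ 2 + δ * p.2 = p.1 ^ 3} := by
  unfold nsol
  refine Nat.card_congr (Equiv.subtypeEquivRight fun p => ?_)
  rw [Affine.equation_iff]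
  unfold Ec
  simp only [zero_mul, add_zero]

end

section
variable {F k : Type} [Field F] [NumberField F] [IsCyclotomicExtension {3} ℚ F] [Field k]
  [NumberField k] [Algebra F k] {ζ : F} (hζ : IsPrimitiveRoot ζ 3) {σ : F →+* ℂ} (hσ : σ ζ = om)

include hζ hσ in
/-- the norm of a principal ideal -/
lemma norm_span (π : 𝓞 F) : ((Ideal.absNorm (Ideal.span {π}) : ℕ) : ℂ) =
    σ (π : F) * (starRingEnd ℂ) (σ (π : F)) := by
  have h1 : Nat.card (𝓞 F ⧸ Ideal.span {π}) =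
      Nat.card (eis ⧸ (sp (isoE hζ σ hσ π) : Ideal eis)) :=
    Nat.card_congr (qe (isoE hζ σ hσ) π).toEquiv.symm
  have h2 : ((Nat.card (eis ⧸ (sp (isoE hζ σ hσ π) : Ideal eis)) : ℕ) : ℝ) =
      Complex.normSq ((isoE hζ σ hσ π : eis) : ℂ) := (lbasic eis om qr).2.2.2.2.1 _
  have h3 : Ideal.absNorm (Ideal.span {π}) = Nat.card (𝓞 F ⧸ Ideal.span {π}) := by
    rw [Ideal.absNorm_apply]
    rfl
  rw [h3, h1, Complex.mul_conj, ← isoE_coe hζ σ hσ, ← h2]
  push_cast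
  rfl

/-- the ring homomorphism to the residue field -/
noncomputable def rho (v : HeightOneSpectrum (𝓞 k)) : eis →+* ResidueField (Ov v) :=
  (redMap v).comp ((algebraMap (𝓞 F) (𝓞 k)).comp ((isoE hζ σ hσ).symm : eis →+* 𝓞 F))

lemma rho_apply (v : HeightOneSpectrum (𝓞 k)) (x : 𝓞 F) :
    rho hζ hσ v (isoE hζ σ hσ x) = redMap v (algebraMap (𝓞 F) (𝓞 k) x) := by
  unfold rho
  simp

include hζ hσ in
/-- **The local factor of `y² + δ y = x³`.** -/
theorem ae_cub {v : HeightOneSpectrum (𝓞 k)} (h3 : (3 : 𝓞 k) ∉ v.asIdeal)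
    {W : WeierstrassCurve k} {C : VariableChange k} {δ : 𝓞 k}
    (hδ : δ ∉ v.asIdeal) (hW : W = C • Ec (δ : k)) {π : 𝓞 F} (hπ1 : (3 : 𝓞 F) ∣ π - 1)
    (hπ : (below F v).asIdeal = Ideal.span {π}) {f : ℕ}
    (hf : nm v = Ideal.absNorm (below F v).asIdeal ^ f) :
    ∃ z : 𝓞 F, z ^ 3 = 1 ∧ 3 ∣ nm v - 1 ∧
      algebraMap (𝓞 F) (𝓞 k) z - δ ^ ((nm v - 1) / 3) ∈ v.asIdeal ∧
      ((aV W v : ℤ) : ℂ) = (σ (z : F)) ^ 2 * (σ (π : F)) ^ f +
        (starRingEnd ℂ) ((σ (z : F)) ^ 2 * (σ (π : F)) ^ f) ∧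
      ((eV W v : ℤ) : ℂ) = (σ (z : F)) ^ 2 * (σ (π : F)) ^ f *
        (starRingEnd ℂ) ((σ (z : F)) ^ 2 * (σ (π : F)) ^ f) ∧ eV W v = nm v := by
  classical
  have hfin := finite_res v
  have : Fintype (ResidueField (Ov v)) := Fintype.ofFinite _
  set ρ := rho hζ hσ v with hρd
  set κ := ResidueField (Ov v)
  have hcard : Fintype.card κ = nm v := by rw [← Nat.card_eq_fintype_card]; exact card_res v
  have h3' : (3 : κ) ≠ 0 := by
    intro h
    apply h3
    rw [← redMap_eq_zero v, map_ofNat]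
    exact h
  obtain ⟨χ, c1, c2, c3⟩ := exists_chi ρ h3'
  have hδ' : redMap v δ ≠ 0 := by rwa [Ne, redMap_eq_zero]
  have hPp : Prime π := by
    have h1 := (below F v).isPrime
    rw [hπ] at h1
    have h2 : π ≠ 0 := by
      rintro rfl
      apply (below F v).ne_bot
      rw [hπ]
      simp
    exact (Ideal.span_singleton_prime h2).1 h1
  set π' : eis := isoE hζ σ hσ π with hπ'
  have hπ'p : Prime π' := (MulEquiv.prime_iff (isoE hζ σ hσ).toMulEquiv).2 hPp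
  have hπ'1 : π' - 1 ∈ (sp 3 : Ideal eis) := by
    rw [sp, Ideal.mem_span_singleton]
    obtain ⟨t, ht⟩ := hπ1
    refine ⟨isoE hζ σ hσ t, ?_⟩
    rw [hπ', ← map_one (isoE hζ σ hσ), ← map_sub, ht, map_mul, map_ofNat]
  have hker : ∀ x, ρ x = 0 ↔ π' ∣ x := by
    intro x
    obtain ⟨y, rfl⟩ := (isoE hζ σ hσ).surjective x
    rw [hρd, rho_apply, redMap_eq_zero, hπ', map_dvd_iff]
    rw [← Ideal.mem_span_singleton, ← hπ]
    rfl
  -- the norm of π
  have hN : ((Ideal.absNorm (below F v).asIdeal : ℕ) : eis) = π' * cj π' := by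
    apply Subtype.ext
    push_cast
    rw [cj_coe, hπ', isoE_coe, hπ]
    exact norm_span hζ hσ π
  have hq : ((Fintype.card κ : ℕ) : eis) = (π' * cj π') ^ f := by
    rw [hcard, hf]
    push_cast
    rw [hN]
  have key := card_aff_twist ρ c1 c2 h3' c3 hδ' hπ'p hπ'1 hker hq
  rw [← nsol_Ec, hcard] at key
  obtain ⟨z, hz⟩ := (isoE hζ σ hσ).surjective (χ (redMap v δ))
  have hχ3 : (χ (redMap v δ)) ^ 3 = 1 := chi_one c1 hδ'
  have h3d := three_dvd ρ h3'
  rw [hcard] at h3d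
  refine ⟨z, (isoE hζ σ hσ).injective (by rw [map_pow, map_one, hz, hχ3]), h3d, ?_, ?_⟩
  · rw [← redMap_eq_zero, map_sub, map_pow, ← rho_apply hζ hσ, hz, sub_eq_zero]
    have := c3 (redMap v δ) hδ'
    rw [hcard] at this
    exact this
  · obtain ⟨a1, a2⟩ := aV_cub h3 hδ hW
    have hz' : ((χ (redMap v δ) : eis) : ℂ) = σ (z : F) := by rw [← hz, isoE_coe]
    have hπC : (π' : ℂ) = σ (π : F) := by rw [hπ', isoE_coe]
    rw [hz', hπC] at key
    have b1 : ((aV W v : ℤ) : ℂ) = (σ (z : F)) ^ 2 * (σ (π : F)) ^ f +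
        (starRingEnd ℂ) ((σ (z : F)) ^ 2 * (σ (π : F)) ^ f) := by
      rw [a1]
      push_cast
      rw [key]
      ring
    have hz1 : (σ (z : F)) * (starRingEnd ℂ) (σ (z : F)) = 1 := by
      have h1 : (σ (z : F)) ^ 3 = 1 := by
        rw [← hz']
        have := congrArg (fun t : eis => (t : ℂ)) hχ3
        push_cast at this
        exact this
      rw [Complex.mul_conj, Complex.normSq_eq_norm_sq, Complex.norm_eq_one_of_pow_eq_one h1 (by norm_num)]
      norm_num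
    have hq' : (nm v : ℂ) = (σ (π : F) * (starRingEnd ℂ) (σ (π : F))) ^ f := by
      have := congrArg (fun t : eis => (t : ℂ)) hq
      push_cast at this
      rw [hcard] at this
      rw [this, cj_coe, hπC]
    have b2 : ((eV W v : ℤ) : ℂ) = (σ (z : F)) ^ 2 * (σ (π : F)) ^ f *
        (starRingEnd ℂ) ((σ (z : F)) ^ 2 * (σ (π : F)) ^ f) := by
      rw [a2, map_mul, map_pow, map_pow]
      push_cast
      rw [hq', mul_pow]
      linear_combination (-(σ (π : F)) ^ f * (starRingEnd ℂ) (σ (π : F)) ^ f) *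
        (σ (z : F) * (starRingEnd ℂ) (σ (z : F)) + 1) * hz1
    exact ⟨b1, b2, a2⟩

include hζ hσ in
theorem ef_cub {v : HeightOneSpectrum (𝓞 k)} (h3 : (3 : 𝓞 k) ∉ v.asIdeal)
    {W : WeierstrassCurve k} {C : VariableChange k} {δ : 𝓞 k}
    (hδ : δ ∉ v.asIdeal) (hW : W = C • Ec (δ : k)) {π : 𝓞 F} (hπ1 : (3 : 𝓞 F) ∣ π - 1)
    (hπ : (below F v).asIdeal = Ideal.span {π}) {f : ℕ}
    (hf : nm v = Ideal.absNorm (below F v).asIdeal ^ f) :
    ∃ z : 𝓞 F, z ^ 3 = 1 ∧ 3 ∣ nm v - 1 ∧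
      algebraMap (𝓞 F) (𝓞 k) z - δ ^ ((nm v - 1) / 3) ∈ v.asIdeal ∧
      ∀ (A : HeightOneSpectrum (𝓞 k) → ℂ), A v = (σ (z : F)) ^ 2 * (σ (π : F)) ^ f →
        ∀ s, ef W v s = gf A v s := by
  obtain ⟨z, h1, h2, h4, b1, b2, -⟩ := ae_cub hζ hσ h3 hδ hW hπ1 hπ hf
  refine ⟨z, h1, h2, h4, fun A hA s => ?_⟩
  rw [← hA] at b1 b2
  unfold ef gf
  rw [b1, b2]
  ring

end

end Pool.Agent.H81.TE
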