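import Pool.Agent.H81.TE.Tw2

/-!
# The orders of vanishing of the twists
-/

set_option autoImplicit false
set_option linter.unusedSectionVars false

namespace Pool.Agent.H81.TE

open NumberField IsDedekindDomain WeierstrassCurve Complex
open Pool.Agent.Y696
open Pool.Agent.W192.HK (sp)
open Pool.Agent.H921R2.TatePole (nm two_le_nm)
open Pool.Agent.K7.H45.CM
open scoped IsMulCommutative

/-- continuation with a value at `1` that is not zero -/
def NZ {F : Type} [Field F] [NumberField F] (E : WeierstrassCurve F) : Prop :=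
  ∃ L : ℂ → ℂ, MeromorphicOn L Set.univ ∧
    (∀ s : ℂ, 3 / 2 < s.re → LSeriesSummable ((fun n : ℤ => (n : ℂ)) ∘ E.LFunction) s ∧
      L s = E.LSeries s) ∧ AnalyticAt ℂ L 1 ∧ L 1 ≠ 0

lemma cn_nz {F : Type} [Field F] [NumberField F] {E : WeierstrassCurve F} {Z : ℂ → ℂ}
    (h : Cn E Z) (h0 : analyticOrderAt Z 1 = 0) : NZ E := by
  obtain ⟨L, a1, a2, a3, a4⟩ := h
  refine ⟨L, a1, a2, a3, ?_⟩
  rw [h0, a3.analyticOrderAt_eq_zero] at a4
  exact a4

lemma nz_cn {F : Type} [Field F] [NumberField F] {E : WeierstrassCurve F} {Z : ℂ → ℂ}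
    (h : Cn E Z) (h' : NZ E) : analyticOrderAt Z 1 = 0 := by
  obtain ⟨L, hm, hL, ha, ho⟩ := h
  obtain ⟨L', hm', hL', ha', ho'⟩ := h'
  have hg : MeromorphicOn (L - L') Set.univ := fun z hz => (hm z hz).sub (hm' z hz)
  have h2 : meromorphicOrderAt (L - L') 3 = ⊤ := by
    rw [meromorphicOrderAt_eq_top_iff]
    apply Filter.Eventually.filter_mono nhdsWithin_le_nhds
    have hop : IsOpen {s : ℂ | 3 / 2 < s.re} := isOpen_lt continuous_const Complex.continuous_re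
    filter_upwards [hop.mem_nhds (show (3 : ℂ) ∈ {s : ℂ | 3 / 2 < s.re} by
      show (3 / 2 : ℝ) < (3 : ℂ).re
      norm_num)] with z hz
    rw [Pi.sub_apply, (hL z hz).2, (hL' z hz).2, sub_self]
  have h3 : meromorphicOrderAt (L - L') 1 = ⊤ := by
    by_contra h
    exact hg.meromorphicOrderAt_ne_top_of_isPreconnected isPreconnected_univ
      (Set.mem_univ (1 : ℂ)) (Set.mem_univ (3 : ℂ)) h h2
  rw [(ha.sub ha').meromorphicOrderAt_eq] at h3
  have h4 : analyticOrderAt (L - L') 1 = ⊤ := by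
    by_contra h5
    rw [← Nat.cast_analyticOrderNatAt h5] at h3
    simp at h3
  rw [analyticOrderAt_eq_top] at h4
  have h5 : L =ᶠ[nhds 1] L' := h4.mono fun z hz => sub_eq_zero.1 hz
  rw [analyticOrderAt_congr h5] at ho
  rw [← ho, ha'.analyticOrderAt_eq_zero]
  exact ho'

section
variable {F k T : Type} [Field F] [NumberField F] [IsCyclotomicExtension {3} ℚ F] [Field k]
  [NumberField k] [Field T] [NumberField T] [Algebra F k] [Algebra k T] [Algebra F T]
  [IsScalarTower F k T] [IsAbelianGalois F k] [IsAbelianGalois F T]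
  {ζ : F} (hζ : IsPrimitiveRoot ζ 3) {σ : F →+* ℂ} (hσ : σ ζ = om)
  {q : Ideal (𝓞 F)} {Φ : Ideal (𝓞 F) → Gal(T/F)}

lemma psT_pow {n : ℕ} (hn : Nat.card Gal(T/F) = n) (χ : Gal(T/F) →* ℂˣ) (α : 𝓞 F) (h0 : α ≠ 0)
    (h : IsCoprime (Ideal.span {α}) (Ideal.span {(3 : 𝓞 F)} * q)) :
    psT hζ hσ q Φ χ (Ideal.span {α}) ^ (6 * n) = (σ α) ^ (6 * n) := by
  have h1 : ((χ (Φ (Ideal.span {α})) : ℂˣ) : ℂ) ^ n = 1 := by
    rw [← Units.val_pow_eq_pow_val, ← map_pow, ← hn, pow_card_eq_one', map_one, Units.val_one]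
  unfold psT
  have h2 : ((χ (Φ (Ideal.span {α})) : ℂˣ) : ℂ) ^ (6 * n) = 1 := by
    rw [mul_comm, pow_mul, h1, one_pow]
  rw [if_pos (IsCoprime.of_mul_right_right h), mul_pow, h2, mul_one, pow_mul,
    psF_six hζ hσ α h0 (IsCoprime.of_mul_right_left h), ← pow_mul]

lemma rest_self (g : Gal(T/F)) : (AlgEquiv.restrictNormalHom T g : Gal(T/F)) = g := by
  ext x
  exact AlgEquiv.restrictNormal_commutes g T x

/-- all the twists of the Hecke character have order zero at `1` -/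
theorem ord_zero (hF : FA F T q Φ) [Fintype (Gal(T/F) →* ℂˣ)] [Fintype (Gal(k/F) →* ℂˣ)]
    (hT : NZ (Ec (1 : T))) {B B' : ℝ} {L : (Gal(T/F) →* ℂˣ) → ℂ → ℂ}
    {L' : (Gal(k/F) →* ℂˣ) → ℂ → ℂ} {χ : Gal(T/F) →* ℂˣ}
    (hL : Pack (Ideal.span {(3 : 𝓞 F)} * q) q (psT hζ hσ q Φ 1) Φ B L)
    (hL' : Pack (Ideal.span {(3 : 𝓞 F)} * q) q (psT hζ hσ q Φ χ)
      (fun I => (AlgEquiv.restrictNormalHom k (Φ I) : Gal(k/F))) B' L') (χ' : Gal(k/F) →* ℂˣ) :
    analyticOrderAt (L' χ') 1 = 0 := by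
  classical
  have hnh : ∀ χ : Gal(T/F) →* ℂˣ, NH σ (Ideal.span {(3 : 𝓞 F)} * q) (psT hζ hσ q Φ χ) :=
    fun χ => nh_twist (nh_psF hζ hσ) hF.na χ
  have hself : FA F T q (fun I => (AlgEquiv.restrictNormalHom T (Φ I) : Gal(T/F))) := by
    have : (fun I => (AlgEquiv.restrictNormalHom T (Φ I) : Gal(T/F))) = Φ := by
      funext I
      exact rest_self _
    rw [this]
    exact hF
  have hbadT := fin_bad (k := T) (T := T) hζ hσ hF hself (W := Ec (1 : T)) (C := 1) (δ := 1)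
    one_ne_zero (by rw [one_smul]; congr 1) (ε := 1) (by rw [one_pow, map_one]) (χ := 1) (θ := 1)
    (fun h => rfl) (fun h z hz => by
      have h1 : algebraMap F T z = algebraMap F T 1 := by
        have h2 : h ((1 : 𝓞 T) : T) = 1 := by
          rw [show ((1 : 𝓞 T) : T) = 1 from rfl, map_one]
        rw [h2] at hz
        rw [map_one]
        have h3 : ((1 : 𝓞 T) : T) = 1 := rfl
        rw [h3, mul_one] at hz
        exact hz.symm
      have h2 : z = 1 := (algebraMap F T).injective h1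
      rw [h2, map_one, one_pow]
      rfl)
  have hcnT := cn_main (hnh 1) hF hL (Ec (1 : T)) hbadT
  have hZT := nz_cn hcnT hT
  have hzero : ∀ χ, analyticOrderAt (L χ) 1 = 0 := by
    intro χ
    rw [(zz_order hL.diff hL.ord).2] at hZT
    have h1 : (2 * ∑ χ, analyticOrderNatAt (L χ) 1 : ℕ) = 0 := by exact_mod_cast hZT
    have h2 : ∑ χ, analyticOrderNatAt (L χ) 1 = 0 := by omega
    have h3 := (Finset.sum_eq_zero_iff.1 h2) χ (Finset.mem_univ χ)
    rw [← Nat.cast_analyticOrderNatAt (hL.ord χ), h3]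
    rfl
  set χ₂ : Gal(T/F) →* ℂˣ := χ * χ'.comp (AlgEquiv.restrictNormalHom k) with hχ₂
  rw [← hzero χ₂]
  symm
  refine order_cmp (hL.diff χ₂) (hL'.diff χ')
    (H1 := hfac (Ideal.span {(3 : 𝓞 F)} * q) q (psT hζ hσ q Φ 1) Φ χ₂)
    (H2 := hfac (Ideal.span {(3 : 𝓞 F)} * q) q (psT hζ hσ q Φ χ)
      (fun I => (AlgEquiv.restrictNormalHom k (Φ I) : Gal(k/F))) χ')
    (fun s hs => ?_) (fun s hs => ?_) (fun P => hfac_diff _ _ _ _ _ P)
    (fun P => hfac_diff _ _ _ _ _ P) (fun P s hs => hfac_ne hL.norm Φ χ₂ P hs)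
    (fun P s hs => hfac_ne hL'.norm _ χ' P hs) ∅ (fun P _ => ?_)
  · exact (hL.prod χ₂ s hs).congr_fun fun P => (hfac_inv _ _ _ _ _ P s).symm
  · exact (hL'.prod χ' s hs).congr_fun fun P => (hfac_inv _ _ _ _ _ P s).symm
  · funext s
    unfold hfac
    by_cases hP : IsCoprime P.asIdeal (Ideal.span {(3 : 𝓞 F)} * q * q)
    · have hPq : IsCoprime P.asIdeal q := IsCoprime.of_mul_right_right hP
      rw [if_pos hP, if_pos hP]
      unfold psT
      rw [if_pos hPq, if_pos hPq, hχ₂, MonoidHom.mul_apply, MonoidHom.one_apply, Units.val_one,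
        Units.val_mul, MonoidHom.comp_apply]
      ring
    · rw [if_neg hP, if_neg hP]

include hσ in
lemma sig_im : ∃ x : F, (σ x).im ≠ 0 := ⟨ζ, by rw [hσ]; exact om_im.ne'⟩

lemma fr_two (F : Type) [Field F] [NumberField F] [IsCyclotomicExtension {3} ℚ F] :
    Module.finrank ℚ F = 2 := by
  rw [IsCyclotomicExtension.finrank (n := 3) F (Polynomial.cyclotomic.irreducible_rat (by norm_num))]
  decide

include hζ hσ in
/-- **The twists.** -/
theorem twist_main (hF : FA F T q Φ)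
    (hFk : FA F k q (fun I => (AlgEquiv.restrictNormalHom k (Φ I) : Gal(k/F))))
    (hT : NZ (Ec (1 : T)))
    {W : WeierstrassCurve k} {C : VariableChange k} {δ : 𝓞 k} (hδ : δ ≠ 0)
    (hW : W = C • Ec (δ : k)) {ε : 𝓞 T} (hε : ε ^ 3 = algebraMap (𝓞 k) (𝓞 T) δ) : NZ W := by
  classical
  obtain ⟨C0, C0', -, -, hcore⟩ := core2 (fr_two F) (σ := σ) (sig_im hσ) (ε := 1) one_pos
  have hGT : Finite (Gal(T/F) →* ℂˣ) := inferInstance
  have hGk : Finite (Gal(k/F) →* ℂˣ) := inferInstance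
  let _ : Fintype (Gal(T/F) →* ℂˣ) := Fintype.ofFinite _
  let _ : Fintype (Gal(k/F) →* ℂˣ) := Fintype.ofFinite _
  have hcard : 1 ≤ 6 * Nat.card Gal(T/F) := by
    have : 0 < Nat.card Gal(T/F) := Nat.card_pos
    omega
  have hnh : ∀ χ : Gal(T/F) →* ℂˣ, NH σ (Ideal.span {(3 : 𝓞 F)} * q) (psT hζ hσ q Φ χ) :=
    fun χ => nh_twist (nh_psF hζ hσ) hF.na χ
  -- the curve over `T`
  obtain ⟨L, hL, -⟩ := hcore _ _ _ (hnh 1) hcard
    (fun α h0 h => psT_pow hζ hσ rfl 1 α h0 h) Gal(T/F) q Φ hF.na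
  -- the character
  have hε0 : (ε : T) ≠ 0 := by
    intro h
    have h1 : ε = 0 := RingOfIntegers.coe_injective (h.trans (map_zero _).symm)
    rw [h1, zero_pow (by norm_num)] at hε
    exact hδ ((FaithfulSMul.algebraMap_injective (𝓞 k) (𝓞 T)) (by rw [← hε, map_zero]))
  have hε' : (ε : T) ^ 3 = algebraMap k T (δ : k) := by
    have := congrArg (fun x : 𝓞 T => (x : T)) hε
    exact this
  obtain ⟨θ, hθ⟩ := exists_theta (F := F) (k := k) (T := T) hζ σ hε' hε0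
  obtain ⟨χ, hχ⟩ := ext_char (AlgEquiv.restrictScalarsHom F : Gal(T/k) →* Gal(T/F))
    (AlgEquiv.restrictScalarsHom_injective F) θ
  have hbad := fin_bad hζ hσ hF hFk hδ hW hε hχ hθ
  obtain ⟨L', hL', -⟩ := hcore _ _ _ (hnh χ) hcard
    (fun α h0 h => psT_pow hζ hσ rfl χ α h0 h) Gal(k/F) q _ hFk.na
  have hcn := cn_main (hnh χ) hFk hL' W hbad
  apply cn_nz hcn
  have hzero' : ∀ χ', analyticOrderAt (L' χ') 1 = 0 := ord_zero hζ hσ hF hT hL hL'
  rw [(zz_order hL'.diff hL'.ord).2]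
  have h1 : ∑ χ, analyticOrderNatAt (L' χ) 1 = 0 := Finset.sum_eq_zero fun χ' _ => by
    unfold analyticOrderNatAt
    rw [hzero' χ']
    rfl
  rw [h1]
  rfl

end

end Pool.Agent.H81.TE
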