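import Pool.Agent.H47.SH.P1N
import Pool.Agent.H47.SH.P3C
import Pool.Agent.H62.SH.TupN
import Pool.Agent.H62.SH.CHN
import Pool.Agent.H40.SH.P3L
import Pool.Agent.H40.EX.D

/-!
# The share of the family (helper62, helper47, helper40)
-/

set_option autoImplicit false

namespace Pool.Agent.H81.TE

open NumberField IsDedekindDomain

theorem share {F : Type} [Field F] [NumberField F] [IsCyclotomicExtension {3} ℚ F] {θ : 𝓞 F}
    (hθ : θ ^ 2 = -3) {n : ℕ} (hn0 : n ≠ 0) (k : ℕ) (e : Fin (k + 1) → ℕ) (he : ∀ i, ¬ 3 ∣ e i) :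
    Pool.Agent.Q283.LQ.Nest (k + 1) fun X => (Pool.Agent.H62.SH.TupN F n k X).Finite ∧
      0 < (Pool.Agent.H62.SH.TupN F n k X).ncard ∧
      (Pool.Agent.H62.SH.TupN F n k X).ncard <
        3 * {q ∈ Pool.Agent.H62.SH.TupN F n k X | Pool.Agent.H62.SH.GfN F θ n k e q}.ncard :=
  Pool.Agent.H62.SH.share_n (Pool.Agent.H47.SH.p1n Pool.Agent.H62.SH.chn) Pool.Agent.H47.SH.p3c
    Pool.Agent.H40.EX.sD Pool.Agent.H40.SH.p3l hθ hn0 k e he

end Pool.Agent.H81.TE
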