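import Pool.Agent.H81.TE.Tws
import Pool.Agent.H81.TE.Form
import Pool.Agent.H81.TE.Cmp

/-!
# The local factors and the twisted Hecke character
-/

set_option autoImplicit false
set_option linter.unusedSectionVars false

namespace Pool.Agent.H81.TE

open NumberField IsDedekindDomain WeierstrassCurve
open Pool.Agent.Y696
open Pool.Agent.W192.HK (sp)
open Pool.Agent.H921R2.TatePole (nm two_le_nm)
open Pool.Agent.K7.H45.CM
open scoped IsMulCommutative

section
variable {F : Type} [Field F] [NumberField F] [IsCyclotomicExtension {3} ℚ F]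
  {ζ : F} (hζ : IsPrimitiveRoot ζ 3) {σ : F →+* ℂ} (hσ : σ ζ = om)

include hζ hσ in
/-- primary generators -/
lemma exists_primF {I : Ideal (𝓞 F)} (h : IsCoprime I (Ideal.span {3})) :
    ∃ π : 𝓞 F, I = Ideal.span {π} ∧ (3 : 𝓞 F) ∣ π - 1 := by
  obtain ⟨α, h1, h2⟩ := exists_prim ((coprime_iff hζ hσ I).2 h)
  obtain ⟨π, rfl⟩ := (isoE hζ σ hσ).surjective α
  refine ⟨π, ?_, ?_⟩
  · rw [← map_span hζ hσ] at h1
    have h3 := congrArg (Ideal.comap (isoE hζ σ hσ : 𝓞 F →+* eis)) h1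
    have a1 := Ideal.comap_map_of_bijective (isoE hζ σ hσ : 𝓞 F →+* eis) (isoE hζ σ hσ).bijective
      (I := I)
    have a2 := Ideal.comap_map_of_bijective (isoE hζ σ hσ : 𝓞 F →+* eis) (isoE hζ σ hσ).bijective
      (I := Ideal.span {π})
    exact a1.symm.trans (h3.trans a2)
  · rw [Ideal.mem_span_singleton] at h2
    obtain ⟨t, ht⟩ := h2
    obtain ⟨t, rfl⟩ := (isoE hζ σ hσ).surjective t
    refine ⟨t, (isoE hζ σ hσ).injective ?_⟩
    rw [map_sub, map_one, ht, map_mul, map_ofNat]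

end

lemma fin_below {F k : Type} [Field F] [NumberField F] [Field k] [NumberField k] [Algebra F k]
    {I : Ideal (𝓞 F)} (hI : I ≠ ⊥) :
    {v : HeightOneSpectrum (𝓞 k) | ¬ IsCoprime (below F v).asIdeal I}.Finite := by
  classical
  refine Set.Finite.subset (Set.Finite.biUnion (bad_finite hI) fun P _ =>
      Set.toFinite (Set.range fun v : {v : HeightOneSpectrum (𝓞 k) // below F v = P} => v.1)) ?_
  intro v hv
  rw [Set.mem_iUnion₂]
  exact ⟨below F v, hv, ⟨v, rfl⟩, rfl⟩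

lemma fin_mem {k : Type} [Field k] [NumberField k] {δ : 𝓞 k} (hδ : δ ≠ 0) :
    {v : HeightOneSpectrum (𝓞 k) | δ ∈ v.asIdeal}.Finite := by
  refine (Ideal.finite_factors (I := Ideal.span {δ})
    (fun h0 => hδ (Ideal.span_singleton_eq_bot.1 h0))).subset fun v hv => ?_
  change v.asIdeal ∣ Ideal.span {δ}
  rw [Ideal.dvd_span_singleton]
  exact hv

section
variable {F k T : Type} [Field F] [NumberField F] [IsCyclotomicExtension {3} ℚ F] [Field k]
  [NumberField k] [Field T] [NumberField T] [Algebra F k] [Algebra k T] [Algebra F T]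
  [IsScalarTower F k T] [IsAbelianGalois F k] [IsAbelianGalois F T]
  {ζ : F} (hζ : IsPrimitiveRoot ζ 3) {σ : F →+* ℂ} (hσ : σ ζ = om)
  {q : Ideal (𝓞 F)} {Φ : Ideal (𝓞 F) → Gal(T/F)}

open Classical in
/-- the twisted Hecke character -/
noncomputable def psT (q : Ideal (𝓞 F)) (Φ : Ideal (𝓞 F) → Gal(T/F)) (χ : Gal(T/F) →* ℂˣ)
    (I : Ideal (𝓞 F)) : ℂ :=
  if IsCoprime I q then psF hζ hσ I * ((χ (Φ I) : ℂˣ) : ℂ) else 0

/-- an automorphism which is trivial on the intermediate field -/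
lemma exists_lift {g : Gal(T/F)} (hg : (AlgEquiv.restrictNormalHom k g : Gal(k/F)) = 1) :
    ∃ h : Gal(T/k), AlgEquiv.restrictScalarsHom F h = g := by
  have h1 : ∀ x : k, g (algebraMap k T x) = algebraMap k T x := by
    intro x
    have h2 := AlgEquiv.restrictNormal_commutes g k x
    have h3 : g.restrictNormal k = 1 := hg
    rw [h3] at h2
    exact h2.symm
  exact ⟨AlgEquiv.ofRingEquiv (f := g.toRingEquiv) h1, rfl⟩

theorem fin_bad (hF : FA F T q Φ)
    (hFk : FA F k q (fun I => (AlgEquiv.restrictNormalHom k (Φ I) : Gal(k/F))))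
    {W : WeierstrassCurve k} {C : VariableChange k} {δ : 𝓞 k} (hδ : δ ≠ 0)
    (hW : W = C • Ec (δ : k)) {ε : 𝓞 T} (hε : ε ^ 3 = algebraMap (𝓞 k) (𝓞 T) δ)
    {χ : Gal(T/F) →* ℂˣ} {θ : Gal(T/k) →* ℂˣ}
    (hχ : ∀ h, χ (AlgEquiv.restrictScalarsHom F h) = θ h)
    (hθ : ∀ (h : Gal(T/k)) (z : F), h (ε : T) = algebraMap F T z * ε →
      ((θ h : ℂˣ) : ℂ) = σ z ^ 2) :
    {v : HeightOneSpectrum (𝓞 k) | ¬ ∀ s, ef W v s = gf (AA F (psT hζ hσ q Φ χ)) v s}.Finite := by
  classical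
  have hnh : NH σ (Ideal.span {(3 : 𝓞 F)} * q) (psT hζ hσ q Φ χ) :=
    nh_twist (nh_psF hζ hσ) hF.na χ
  refine ((fin_below (k := k) hnh.ne).union (fin_mem hδ)).subset fun v hv => ?_
  by_contra hcon
  rw [Set.mem_union, not_or] at hcon
  obtain ⟨hc1, hc2⟩ := hcon
  have hc : IsCoprime (below F v).asIdeal (Ideal.span {(3 : 𝓞 F)} * q) := not_not.1 hc1
  have hδv : δ ∉ v.asIdeal := hc2
  apply hv
  have cq : IsCoprime (below F v).asIdeal q := IsCoprime.of_mul_right_right hc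
  have c3 : IsCoprime (below F v).asIdeal (Ideal.span {(3 : 𝓞 F)}) :=
    IsCoprime.of_mul_right_left hc
  have h3 : (3 : 𝓞 k) ∉ v.asIdeal := by
    intro h
    have h1 : (3 : 𝓞 F) ∈ (below F v).asIdeal := by
      have : algebraMap (𝓞 F) (𝓞 k) 3 ∈ v.asIdeal := by rw [map_ofNat]; exact h
      exact this
    rw [Ideal.isCoprime_iff_sup_eq, sup_eq_left.2 ((Ideal.span_singleton_le_iff_mem _).2 h1)] at c3
    exact (below F v).isPrime.ne_top c3
  obtain ⟨π, hπ, hπ1⟩ := exists_primF hζ hσ c3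
  set g : Gal(k/F) := AlgEquiv.restrictNormalHom k (Φ (below F v).asIdeal) with hg
  have hnm : nm v = Ideal.absNorm (below F v).asIdeal ^ orderOf g := (hFk.split cq).1 v rfl
  obtain ⟨z, hz3, h3d, hzδ, hA⟩ := ef_cub hζ hσ h3 hδv hW hπ1 hπ hnm
  apply hA
  -- the Frobenius automorphism of `T / k`
  set G : Gal(T/F) := Φ (below F v).asIdeal ^ orderOf g with hG
  have hG1 : (AlgEquiv.restrictNormalHom k G : Gal(k/F)) = 1 := by
    rw [hG, map_pow, ← hg, pow_orderOf_eq_one]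
  obtain ⟨h, hh⟩ := exists_lift hG1
  obtain ⟨w, hw⟩ := Pool.Agent.H62.EX.exists_above (F := k) (K := T) v
  have hbw : below F w = below F v := by
    rw [← hw]
    apply HeightOneSpectrum.ext
    exact (Ideal.under_under (A := 𝓞 F) (B := 𝓞 k) w.asIdeal).symm
  have hfr : ∀ x : 𝓞 T, h • x - x ^ nm v ∈ w.asIdeal := by
    intro x
    have h1 := frob_pow (w := w) (g := Φ (below F v).asIdeal)
      (N := Ideal.absNorm (below F v).asIdeal) (fun y => by
        have := hF.frob w (by rw [hbw]; exact cq) y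
        rwa [hbw] at this) (orderOf g) x
    rw [← hnm, ← hG] at h1
    have h2 : h • x = G • x := by
      apply RingOfIntegers.coe_injective
      exact DFunLike.congr_fun hh (x : T)
    rw [h2]
    exact h1
  have hmem : ∀ x : 𝓞 k, algebraMap (𝓞 k) (𝓞 T) x ∈ w.asIdeal ↔ x ∈ v.asIdeal := by
    intro x
    have h1 : x ∈ (w.under (𝓞 k)).asIdeal ↔ algebraMap (𝓞 k) (𝓞 T) x ∈ w.asIdeal := Iff.rfl
    rw [← h1, hw]
  have h5 := kummer (k := k) (w := w) (h := h) (N := nm v) (ε := ε) (δ := δ)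
    (z := algebraMap (𝓞 F) (𝓞 k) z)
    (by
      intro h6
      apply h3
      rw [← hmem, map_ofNat]
      exact h6) (by have := two_le_nm v; omega) h3d hfr hε
    (by rw [hmem]; exact hδv) (by rw [← map_pow, hz3, map_one]) (by
      rw [hmem]
      exact hzδ)
  have h6 : h (ε : T) = algebraMap F T (z : F) * ε := by
    have h7 := congrArg (fun x : 𝓞 T => (x : T)) h5
    have h8 : ((algebraMap (𝓞 k) (𝓞 T) (algebraMap (𝓞 F) (𝓞 k) z) * ε : 𝓞 T) : T) =
        algebraMap F T (z : F) * ε := by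
      rw [IsScalarTower.algebraMap_apply F k T]
      rfl
    exact h7.trans h8
  have h7 := hθ h (z : F) h6
  rw [← hχ, hh] at h7
  rw [aa_eq hnh hFk cq rfl]
  unfold psT
  rw [if_pos cq, ← hg, mul_pow, ← Units.val_pow_eq_pow_val, ← map_pow, ← hG, h7]
  have h8 : psF hζ hσ (below F v).asIdeal = σ (π : F) := by
    rw [hπ]
    exact psF_prime hζ hσ hπ1
  rw [h8]
  ring

end

end Pool.Agent.H81.TE
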