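import Pool.Agent.H81.TE.Loc
import Pool.Agent.H81.TE.Art

/-!
# The Hecke character of a cubic twist
-/

set_option autoImplicit false
set_option linter.unusedSectionVars false

namespace Pool.Agent.H81.TE

open NumberField IsDedekindDomain WeierstrassCurve
open Pool.Agent.Y696
open Pool.Agent.W192.HK (sp)
open Pool.Agent.H921R2.TatePole (nm two_le_nm)
open Pool.Agent.K7.H45.CM
open scoped IsMulCommutative

section
variable {k T : Type} [Field k] [NumberField k] [Field T] [NumberField T] [Algebra k T]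

lemma frob_pow {G : Type*} [Group G] [MulSemiringAction G (𝓞 T)] {w : HeightOneSpectrum (𝓞 T)} {g : G} {N : ℕ}
    (h : ∀ x : 𝓞 T, g • x - x ^ N ∈ w.asIdeal) (m : ℕ) (x : 𝓞 T) :
    g ^ m • x - x ^ (N ^ m) ∈ w.asIdeal := by
  induction m generalizing x with
  | zero => simp
  | succ m ih =>
    rw [pow_succ', mul_smul]
    have h1 := h (g ^ m • x)
    have h2 : (g ^ m • x) ^ N - (x ^ (N ^ m)) ^ N ∈ w.asIdeal := by
      obtain ⟨t, ht⟩ := sub_dvd_pow_sub_pow (g ^ m • x) (x ^ (N ^ m)) N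
      rw [ht]
      exact w.asIdeal.mul_mem_right _ (ih x)
    have h3 := w.asIdeal.add_mem h1 h2
    rw [← pow_mul, ← pow_succ, sub_add_sub_cancel] at h3
    exact h3

/-- the action on a cube root -/
lemma kummer {w : HeightOneSpectrum (𝓞 T)} (h3 : (3 : 𝓞 T) ∉ w.asIdeal) {h : Gal(T/k)} {N : ℕ}
    (hN1 : 1 ≤ N) (hN : 3 ∣ N - 1) (hfrob : ∀ x : 𝓞 T, h • x - x ^ N ∈ w.asIdeal) {δ : 𝓞 k} {ε : 𝓞 T}
    (hε : ε ^ 3 = algebraMap (𝓞 k) (𝓞 T) δ) (hδ : algebraMap (𝓞 k) (𝓞 T) δ ∉ w.asIdeal) {z : 𝓞 k}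
    (hz : z ^ 3 = 1) (hzδ : algebraMap (𝓞 k) (𝓞 T) (z - δ ^ ((N - 1) / 3)) ∈ w.asIdeal) :
    h • ε = algebraMap (𝓞 k) (𝓞 T) z * ε := by
  obtain ⟨m, hm⟩ := hN
  have hm' : (N - 1) / 3 = m := by omega
  have hN2 : N = 3 * m + 1 := by omega
  rw [hm'] at hzδ
  have h1 := hfrob ε
  rw [hN2, pow_succ, pow_mul, hε] at h1
  have h2 : h • ε - algebraMap (𝓞 k) (𝓞 T) z * ε ∈ w.asIdeal := by
    have h3 := w.asIdeal.sub_mem h1 (w.asIdeal.mul_mem_right ε hzδ)
    rw [map_sub, map_pow] at h3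
    have e : h • ε - (algebraMap (𝓞 k) (𝓞 T) δ) ^ m * ε -
        (algebraMap (𝓞 k) (𝓞 T) z - (algebraMap (𝓞 k) (𝓞 T) δ) ^ m) * ε =
        h • ε - algebraMap (𝓞 k) (𝓞 T) z * ε := by ring
    rwa [e] at h3
  have hfix : h • algebraMap (𝓞 k) (𝓞 T) δ = algebraMap (𝓞 k) (𝓞 T) δ := by
    apply RingOfIntegers.coe_injective
    exact h.commutes (δ : k)
  have h4 : (h • ε) ^ 3 = (algebraMap (𝓞 k) (𝓞 T) z * ε) ^ 3 := by
    rw [← smul_pow', hε, hfix, mul_pow, ← map_pow, hz, map_one, one_mul, hε]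
  generalize h • ε = a at h2 h4 ⊢
  obtain ⟨b, hb⟩ : ∃ b, b = algebraMap (𝓞 k) (𝓞 T) z * ε := ⟨_, rfl⟩
  rw [← hb] at h2 h4 ⊢
  have hbw : b ∉ w.asIdeal := by
    intro h5
    apply hδ
    have h6 : b ^ 3 = algebraMap (𝓞 k) (𝓞 T) δ := by
      rw [hb, mul_pow, ← map_pow, hz, map_one, one_mul, hε]
    rw [← h6]
    exact Ideal.pow_mem_of_mem _ h5 3 (by norm_num)
  have h5 : (a - b) * (a ^ 2 + a * b + b ^ 2) = 0 := by linear_combination h4
  rcases mul_eq_zero.1 h5 with h6 | h6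
  · exact sub_eq_zero.1 h6
  · exfalso
    have h7 : 3 * b ^ 2 ∈ w.asIdeal := by
      have e : 3 * b ^ 2 = -((a - b) * (a + 2 * b)) := by linear_combination h6
      rw [e]
      exact w.asIdeal.neg_mem (w.asIdeal.mul_mem_right _ h2)
    rcases w.isPrime.mem_or_mem h7 with h8 | h8
    · exact h3 h8
    · exact hbw (w.isPrime.mem_of_pow_mem _ h8)

end

section
variable {F k T : Type} [Field F] [NumberField F] [IsCyclotomicExtension {3} ℚ F] [Field k]
  [NumberField k] [Field T]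
  [NumberField T] [Algebra F k] [Algebra k T] [Algebra F T] [IsScalarTower F k T]
  {ζ : F} (hζ : IsPrimitiveRoot ζ 3) (σ : F →+* ℂ)

include hζ in
/-- the cubic character of a cube root -/
theorem exists_theta {δ : k} {ε : T} (hε : ε ^ 3 = algebraMap k T δ) (hε0 : ε ≠ 0) :
    ∃ θ : Gal(T/k) →* ℂˣ, ∀ (h : Gal(T/k)) (z : F), h ε = algebraMap F T z * ε →
      ((θ h : ℂˣ) : ℂ) = σ z ^ 2 := by
  have h1 : ∀ h : Gal(T/k), ∃ z : F, h ε = algebraMap F T z * ε := by
    intro h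
    have h2 : (h ε) ^ 3 = ε ^ 3 := by
      rw [← map_pow, hε, h.commutes]
    have hz := Pool.Agent.H62.quad_of hζ
    have h3 : (h ε - ε) * ((h ε - algebraMap F T ζ * ε) * (h ε - algebraMap F T (ζ ^ 2) * ε)) = 0 := by
      have hz' : (algebraMap F T ζ) ^ 2 + algebraMap F T ζ + 1 = 0 := by
        rw [← map_pow, ← map_add, ← map_one (algebraMap F T), ← map_add, hz, map_zero]
      rw [map_pow]
      linear_combination h2 + (h ε - ε) * (-ε * h ε + (algebraMap F T ζ - 1) * ε ^ 2) * hz'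
    rcases mul_eq_zero.1 h3 with h4 | h4
    · exact ⟨1, by rw [map_one, one_mul]; exact sub_eq_zero.1 h4⟩
    · rcases mul_eq_zero.1 h4 with h5 | h5
      · exact ⟨ζ, sub_eq_zero.1 h5⟩
      · exact ⟨ζ ^ 2, sub_eq_zero.1 h5⟩
  choose z hz using h1
  have huniq : ∀ a b : F, algebraMap F T a * ε = algebraMap F T b * ε → a = b := fun a b hab =>
    (algebraMap F T).injective (mul_right_cancel₀ hε0 hab)
  have hz0 : ∀ h, z h ≠ 0 := by
    intro h h0
    have h2 := hz h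
    rw [h0, map_zero, zero_mul] at h2
    exact hε0 ((map_eq_zero_iff h h.injective).1 h2)
  have hσ0 : ∀ h, σ (z h) ≠ 0 := fun h => (map_ne_zero σ).2 (hz0 h)
  refine ⟨{ toFun := fun h => (Units.mk0 (σ (z h)) (hσ0 h)) ^ 2
            map_one' := ?_
            map_mul' := fun g h => ?_ }, fun h w hw => ?_⟩
  · have h2 : z 1 = 1 := huniq _ _ (by
      rw [← hz 1, map_one, one_mul]
      rfl)
    have h3 : Units.mk0 (σ (z 1)) (hσ0 1) = 1 := by
      ext
      rw [Units.val_mk0, h2, map_one, Units.val_one]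
    rw [h3, one_pow]
  · have h2 : z (g * h) = z g * z h := huniq _ _ (by
      have e1 : (g * h) ε = g (h ε) := rfl
      have e2 : g (algebraMap F T (z h)) = algebraMap F T (z h) := by
        rw [IsScalarTower.algebraMap_apply F k T]
        exact g.commutes _
      rw [← hz (g * h), e1, hz h, map_mul, e2, hz g, map_mul]
      ring)
    rw [← mul_pow]
    congr 1
    ext
    rw [Units.val_mk0, h2, map_mul, Units.val_mul, Units.val_mk0, Units.val_mk0]
  · have h2 : z h = w := huniq _ _ (by rw [← hz h, hw])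
    rw [MonoidHom.coe_mk, OneHom.coe_mk, Units.val_pow_eq_pow_val, Units.val_mk0, h2]

end

/-- the extension of a character -/
lemma ext_char {Γ Δ : Type} [CommGroup Γ] [Finite Γ] [Group Δ] (f : Δ →* Γ)
    (hf : Function.Injective f) (θ : Δ →* ℂˣ) : ∃ χ : Γ →* ℂˣ, ∀ g, χ (f g) = θ g := by
  obtain ⟨χ, hχ⟩ := MonoidHom.domRestrict_surjective (G := Γ) ℂ f.range
    (θ.comp (MonoidHom.ofInjective hf).symm.toMonoidHom)
  refine ⟨χ, fun g => ?_⟩
  have h1 := DFunLike.congr_fun hχ (MonoidHom.ofInjective hf g)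
  have h2 : (θ.comp (MonoidHom.ofInjective hf).symm.toMonoidHom) (MonoidHom.ofInjective hf g) =
      θ g := by
    show θ ((MonoidHom.ofInjective hf).symm (MonoidHom.ofInjective hf g)) = θ g
    rw [MulEquiv.symm_apply_apply]
  rw [h2] at h1
  exact h1

end Pool.Agent.H81.TE
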